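import Pool.Agent.H585R2.CC.GDefs

/-!
# Two product bounds (task CNT)
-/

set_option autoImplicit false

namespace Pool.Agent.H585R2.CC

open Finset H568R2 Pool.Agent.H676 Pool.Agent.H620R2.Gauge Pool.Agent.NPC Pool.Agent.H591R3.PHG

/-- merging the two random choices -/
theorem cnt_merge {I : Type} [Fintype I] [DecidableEq I] {t : ℝ} {law : Option Bool → ℝ}
    (hl : ∑ v, law v = 1) (F : (I → Bool) → ℝ) :
    Ex law (fun s : I → Option Bool => Ex (ber t) (fun z : I → Bool => F (val s z))) =
      Ex (ber (t * law none + law (some true))) F := by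
  have h1 := Ex_prod (I := I) law (ber t) (fun w => F (fun i => (w i).1.getD (w i).2))
  have h2 := Ex_push (I := I) (fun c : Option Bool × Bool => c.1.getD c.2)
    (fun c : Option Bool × Bool => law c.1 * ber t c.2)
    (ber (t * law none + law (some true))) (by
      intro b
      rw [Finset.sum_filter, Fintype.sum_prod_type]
      simp only [Fintype.sum_option, Fintype.sum_bool] at hl ⊢
      cases b
      · simp [ber]
        linarith
      · simp [ber]
        ring) F
  rw [← h2, h1]
  rfl

/-- the expectation of a product over the blocks -/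
theorem cnt_prod {X : Type} [Fintype X] [DecidableEq X] {c : ℕ} (w : Bool → ℝ)
    (g : (Fin c → Bool) → ℝ) :
    Ex w (fun v : X × Fin c → Bool => ∏ j, g (fun i => v (j, i))) =
      (Ex w g) ^ (Fintype.card X) := by
  unfold Ex
  rw [← (Equiv.curry X (Fin c) Bool).symm.sum_comp]
  have h : ∀ V : X → Fin c → Bool,
      (∏ i, w ((Equiv.curry X (Fin c) Bool).symm V i)) *
        (∏ j, g (fun i => (Equiv.curry X (Fin c) Bool).symm V (j, i))) =
      ∏ j, ((∏ i, w (V j i)) * g (V j)) := by
    intro V
    rw [Fintype.prod_prod_type, ← Finset.prod_mul_distrib]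
    rfl
  rw [Finset.sum_congr rfl fun V _ => h V]
  have h2 := Finset.prod_univ_sum (fun _ : X => (univ : Finset (Fin c → Bool)))
    (fun _ u => (∏ i, w (u i)) * g u)
  rw [Fintype.piFinset_univ] at h2
  rw [← h2]
  simp

open Classical in
theorem cnt_block {c : ℕ} {p : ℝ} (hp1 : p ≤ 1) (hp : 1 / 2 ≤ c * p) :
    Ex (ber p) (fun u : Fin c → Bool => if ∃ i, u i = true then (1 / 2 : ℝ) else 1) ≤ 9 / 10 := by
  have hw : ∑ b, ber p b = 1 := by simp [ber]
  have h1 : Ex (ber p) (fun u : Fin c → Bool => if ∃ i, u i = true then (1 / 2 : ℝ) else 1) =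
      Ex (ber p) (fun u : Fin c → Bool => 1 / 2 +
        1 / 2 * ((fun _ => (1 : ℝ)) u * (if ∀ i ∈ (univ : Finset (Fin c)), u i = false then 1 else 0))) := by
    congr 1
    funext u
    by_cases h : ∃ i, u i = true
    · have h' : ¬ ∀ i ∈ (univ : Finset (Fin c)), u i = false := by
        push Not
        obtain ⟨i, hi⟩ := h
        exact ⟨i, mem_univ i, by simp [hi]⟩
      rw [if_pos h, if_neg h']
      ring
    · have h' : ∀ i ∈ (univ : Finset (Fin c)), u i = false := by
        intro i _
        by_contra hi
        exact h ⟨i, by simpa using hi⟩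
      rw [if_neg h, if_pos h']
      ring
  rw [h1, Ex_add, Ex_const hw, Ex_smul]
  have h2 := Ex_indep (I := Fin c) (w := ber p) hw (fun b => b = false) univ (fun _ => (1 : ℝ))
    (fun _ _ _ _ => rfl)
  have h3 : Ex (ber p) (fun ω : Fin c → Bool =>
      (fun _ => (1 : ℝ)) ω * (if ∀ i ∈ (univ : Finset (Fin c)), ω i = false then 1 else 0)) =
      (1 - p) ^ c := by
    have e1 : (∑ a ∈ univ.filter (fun b : Bool => b = false), ber p a) = 1 - p := by
      rw [Finset.sum_filter]
      simp [ber]
    rw [e1, Ex_const hw, Finset.card_univ, Fintype.card_fin, mul_one] at h2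
    rw [← h2]
    congr 1
    funext ω
    congr
  rw [h3]
  have h4 : (1 - p) ^ c ≤ Real.exp (-(1 / 2)) := by
    calc (1 - p) ^ c ≤ (Real.exp (-p)) ^ c := by
          apply pow_le_pow_left₀ (by linarith)
          have := Real.add_one_le_exp (-p)
          linarith
      _ = Real.exp (-(c * p)) := by
          rw [← Real.exp_nat_mul]
          congr 1
          ring
      _ ≤ Real.exp (-(1 / 2)) := Real.exp_le_exp.2 (by linarith)
  have h5 : Real.exp (-(1 / 2 : ℝ)) ≤ 2 / 3 := by
    rw [Real.exp_neg]
    have h6 := Real.add_one_le_exp (1 / 2 : ℝ)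
    rw [inv_le_comm₀ (Real.exp_pos _) (by norm_num)]
    norm_num at h6 ⊢
    linarith
  linarith

open Classical in
theorem nfeas_bound {X : Type} [Fintype X] [DecidableEq X] {c q : ℕ} {t : ℝ} (ht0 : 0 ≤ t)
    (ht1 : t ≤ 1) {law : Option Bool → ℝ} (hn : ∀ v, 0 ≤ law v) (hl : ∑ v, law v = 1)
    (hp : 1 / 2 ≤ c * (t * law none + law (some true))) :
    Ex law (fun s : X × Fin c → Option Bool => Ex (ber t) (fun z : X × Fin c → Bool =>
      if nfeas (val s z) ≤ q then (1 : ℝ) else 0)) ≤ 2 ^ q * (9 / 10) ^ (Fintype.card X) := by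
  rw [cnt_merge (I := X × Fin c) (t := t) hl (fun v => if nfeas v ≤ q then (1 : ℝ) else 0)]
  set p := t * law none + law (some true) with hpd
  have hl' := hl
  simp only [Fintype.sum_option, Fintype.sum_bool] at hl'
  have hp0 : 0 ≤ p := add_nonneg (mul_nonneg ht0 (hn _)) (hn _)
  have hp1 : p ≤ 1 := by
    have : t * law none ≤ law none := by
      have := hn none
      nlinarith
    have h2 := hn (some false)
    linarith
  have hb : ∀ b, 0 ≤ ber p b := by
    intro b
    cases b
    · simp [ber]; linarith
    · simp [ber]; linarith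
  have h1 : ∀ v : X × Fin c → Bool, (if nfeas v ≤ q then (1 : ℝ) else 0) ≤
      2 ^ q * ∏ j, (fun u : Fin c → Bool => if ∃ i, u i = true then (1 / 2 : ℝ) else 1)
        (fun i => v (j, i)) := by
    intro v
    have h2 : ∏ j, (fun u : Fin c → Bool => if ∃ i, u i = true then (1 / 2 : ℝ) else 1)
        (fun i => v (j, i)) = (1 / 2) ^ nfeas v := by
      simp only
      rw [Finset.prod_ite, Finset.prod_const, Finset.prod_const_one, mul_one]
      unfold nfeas
      congr
    rw [h2]
    by_cases h : nfeas v ≤ q
    · rw [if_pos h]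
      have h3 : (1 / 2 : ℝ) ^ q ≤ (1 / 2) ^ nfeas v :=
        pow_le_pow_of_le_one (by norm_num) (by norm_num) h
      calc (1 : ℝ) = 2 ^ q * (1 / 2) ^ q := by rw [← mul_pow]; norm_num
        _ ≤ _ := mul_le_mul_of_nonneg_left h3 (by positivity)
    · rw [if_neg h]
      positivity
  refine (Ex_mono hb h1).trans ?_
  have h4 := cnt_prod (X := X) (ber p)
    (fun u : Fin c → Bool => if ∃ i, u i = true then (1 / 2 : ℝ) else 1)
  rw [Ex_smul, h4]
  refine mul_le_mul_of_nonneg_left ?_ (by positivity)
  refine pow_le_pow_left₀ ?_ (cnt_block hp1 hp) _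
  refine Ex_nonneg hb fun u => ?_
  split_ifs <;> norm_num

open Classical in
theorem killed_bound {I : Type} [Fintype I] [DecidableEq I] {law : Option Bool → ℝ}
    (hn : ∀ v, 0 ≤ law v) (hl : ∑ v, law v = 1) :
    Ex law (fun s : I → Option Bool => if ∃ p, s p = some true then (1 : ℝ) else 0) ≤
      Fintype.card I * law (some true) := by
  have h1 : ∀ s : I → Option Bool, (if ∃ p, s p = some true then (1 : ℝ) else 0) ≤
      ∑ p, (if s p = some true then (1 : ℝ) else 0) := by
    intro s
    split_ifs with h
    · obtain ⟨p, hp⟩ := h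
      have := Finset.single_le_sum (s := univ) (f := fun p => if s p = some true then (1 : ℝ) else 0)
        (fun i _ => by split_ifs <;> norm_num) (mem_univ p)
      simpa [hp] using this
    · exact Finset.sum_nonneg fun i _ => by split_ifs <;> norm_num
  refine (Ex_mono hn h1).trans ?_
  rw [Ex_sum]
  have h2 : ∀ p : I, Ex law (fun s : I → Option Bool => if s p = some true then (1 : ℝ) else 0) =
      law (some true) := by
    intro p
    rw [Ex_resample hl _ p]
    simp only [Function.update_self]
    have : ∀ ω : I → Option Bool, (∑ a, law a * (if a = some true then (1 : ℝ) else 0)) =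
        law (some true) := by
      intro ω
      simp
    simp only [mul_ite, mul_one, mul_zero, Finset.sum_ite_eq', Finset.mem_univ, if_true]
    exact Ex_const hl _
  rw [Finset.sum_congr rfl fun p _ => h2 p]
  simp

end Pool.Agent.H585R2.CC
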