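import Pool.Agent.H585R2.CC.GDefs

/-!
# The touched positions of a protocol (task TCH, helper379)
-/

set_option autoImplicit false
set_option linter.unusedSectionVars false

namespace Pool.Agent.H585R2.CC

open Finset H568R2 Pool.Agent.H676 Pool.Agent.H620R2.Gauge Pool.Agent.NPC Pool.Agent.H591R3.PHG

section
variable {X : Type} [Fintype X] [DecidableEq X] {c : ℕ} (r : X → ℕ)

open Classical in
/-- the touched positions; `τ` is the frontier rank -/
noncomputable def TCH_set (s : X × Fin c → Option Bool) (z : X × Fin c → Bool) :
    Gm (X × Fin c) → ℕ → Finset (X × Fin c)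
  | .out o, τ => match o with
    | none => ∅
    | some p => if r p.1 ≤ τ then ∅ else {p}
  | .bit p f, τ => if s p ≠ none ∨ r p.1 ≤ τ then TCH_set s z (f (z p)) τ
      else insert p (if z p = true then ∅ else TCH_set s z (f false) τ)
  | .pre o f, τ => if rk r o ≤ τ then
      (if fs (val s z) o then
        (match nextP r (val s z) (rk r o) with
          | none => TCH_set s z (f none) τ
          | some p => TCH_set s z (f (some (some p))) (max τ (r p.1)))
        else TCH_set s z (f (some none)) τ)
      else (match o with
        | none => ∅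
        | some p => insert p (if val s z p = true then ∅ else TCH_set s z (f (some none)) τ))

theorem TCH_set_pre1 {s : X × Fin c → Option Bool} {z : X × Fin c → Bool}
    {o : Option (X × Fin c)} {f : Option (Option (X × Fin c)) → Gm (X × Fin c)} {τ : ℕ}
    (h : rk r o ≤ τ) (h' : ¬ fs (H591R3.PHG.val s z) o) :
    TCH_set r s z (.pre o f) τ = TCH_set r s z (f (some none)) τ := by
  rcases o with _ | p
  · rw [TCH_set, if_pos h, if_neg h']
  · rw [TCH_set, if_pos h, if_neg h']

theorem TCH_set_pre2 {s : X × Fin c → Option Bool} {z : X × Fin c → Bool}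
    {o : Option (X × Fin c)} {f : Option (Option (X × Fin c)) → Gm (X × Fin c)} {τ : ℕ}
    (h : rk r o ≤ τ) (h' : fs (H591R3.PHG.val s z) o)
    (hn : nextP r (H591R3.PHG.val s z) (rk r o) = none) :
    TCH_set r s z (.pre o f) τ = TCH_set r s z (f none) τ := by
  rcases o with _ | p
  · rw [TCH_set, if_pos h, if_pos h', hn]
  · rw [TCH_set, if_pos h, if_pos h', hn]

theorem TCH_set_pre3 {s : X × Fin c → Option Bool} {z : X × Fin c → Bool}
    {o : Option (X × Fin c)} {f : Option (Option (X × Fin c)) → Gm (X × Fin c)} {τ : ℕ}
    (h : rk r o ≤ τ) (h' : fs (H591R3.PHG.val s z) o) {p1 : X × Fin c}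
    (hn : nextP r (H591R3.PHG.val s z) (rk r o) = some p1) :
    TCH_set r s z (.pre o f) τ = TCH_set r s z (f (some (some p1))) (max τ (r p1.1)) := by
  rcases o with _ | p
  · rw [TCH_set, if_pos h, if_pos h', hn]
  · rw [TCH_set, if_pos h, if_pos h', hn]

theorem TCH_set_pre4 {s : X × Fin c → Option Bool} {z : X × Fin c → Bool}
    {p : X × Fin c} {f : Option (Option (X × Fin c)) → Gm (X × Fin c)} {τ : ℕ}
    (h : ¬ r p.1 ≤ τ) (h' : H591R3.PHG.val s z p = true) :
    TCH_set r s z (.pre (some p) f) τ = {p} := by
  rw [TCH_set, if_neg (show ¬ rk r (some p) ≤ τ from h), if_pos h']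
  rfl

theorem TCH_set_pre5 {s : X × Fin c → Option Bool} {z : X × Fin c → Bool}
    {p : X × Fin c} {f : Option (Option (X × Fin c)) → Gm (X × Fin c)} {τ : ℕ}
    (h : ¬ r p.1 ≤ τ) (h' : ¬ H591R3.PHG.val s z p = true) :
    TCH_set r s z (.pre (some p) f) τ = insert p (TCH_set r s z (f (some none)) τ) := by
  rw [TCH_set, if_neg (show ¬ rk r (some p) ≤ τ from h), if_neg h']

theorem TCH_key_inj {r : X → ℕ} (hr : Function.Injective r) {p p' : X × Fin c}
    (h : key r p = key r p') : p = p' := by
  unfold key at h
  have h1 := p.2.isLt
  have h2 := p'.2.isLt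
  have h3 : r p.1 = r p'.1 := by
    rcases lt_trichotomy (r p.1) (r p'.1) with h4 | h4 | h4
    · exfalso
      have h5 : (r p.1 + 1) * c ≤ r p'.1 * c := Nat.mul_le_mul_right c h4
      rw [add_mul, one_mul] at h5
      omega
    · exact h4
    · exfalso
      have h5 : (r p'.1 + 1) * c ≤ r p.1 * c := Nat.mul_le_mul_right c h4
      rw [add_mul, one_mul] at h5
      omega
  have h4 : p.1 = p'.1 := hr h3
  rw [h3] at h
  have h5 : p.2 = p'.2 := Fin.ext (by omega)
  exact Prod.ext h4 h5

theorem TCH_key_le {r : X → ℕ} {p p' : X × Fin c} (h : key r p ≤ key r p') : r p.1 ≤ r p'.1 := by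
  unfold key at h
  by_contra hcon
  push Not at hcon
  have h2 := p'.2.isLt
  have h5 : (r p'.1 + 1) * c ≤ r p.1 * c := Nat.mul_le_mul_right c hcon
  rw [add_mul, one_mul] at h5
  omega

theorem TCH_next_some {r : X → ℕ} {v : X × Fin c → Bool} {τ : ℕ} {p : X × Fin c}
    (h : nextP r v τ = some p) : v p = true ∧ τ < r p.1 ∧
      ∀ p', v p' = true → τ < r p'.1 → key r p ≤ key r p' := by
  unfold nextP at h
  split_ifs at h with hne
  · have h1 := (Finset.exists_min_image (cand r v τ) (key r) hne).choose_spec
    rw [Option.some.injEq] at h
    rw [h] at h1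
    have h2 := h1.1
    unfold cand at h2
    rw [Finset.mem_filter] at h2
    refine ⟨h2.2.1, h2.2.2, fun p' hp' hp'τ => h1.2 p' ?_⟩
    unfold cand
    rw [Finset.mem_filter]
    exact ⟨Finset.mem_univ _, hp', hp'τ⟩

theorem TCH_next_none {r : X → ℕ} {v : X × Fin c → Bool} {τ : ℕ}
    (h : nextP r v τ = none) (p : X × Fin c) (hp : v p = true) : r p.1 ≤ τ := by
  by_contra hcon
  push Not at hcon
  unfold nextP at h
  rw [dif_pos ⟨p, by unfold cand; rw [Finset.mem_filter]; exact ⟨Finset.mem_univ _, hp, hcon⟩⟩] at h
  exact absurd h (by simp)

theorem TCH_next_eq {r : X → ℕ} (hr : Function.Injective r) {v : X × Fin c → Bool} {τ : ℕ}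
    {p : X × Fin c} (h1 : v p = true) (h2 : τ < r p.1)
    (h3 : ∀ p', v p' = true → τ < r p'.1 → key r p ≤ key r p') : nextP r v τ = some p := by
  rcases hn : nextP r v τ with _ | p'
  · have := TCH_next_none hn p h1
    omega
  · obtain ⟨h4, h5, h6⟩ := TCH_next_some hn
    have h7 := h3 p' h4 h5
    have h8 := h6 p h1 h2
    rw [TCH_key_inj hr (le_antisymm h7 h8)]

/-- touched positions are beyond the frontier -/
theorem TCH_frontier (s : X × Fin c → Option Bool) (z : X × Fin c → Bool) (G : Gm (X × Fin c)) :
    ∀ (τ : ℕ) (p : X × Fin c), p ∈ TCH_set r s z G τ → τ < r p.1 := by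
  induction G with
  | out o =>
    intro τ p hp
    rcases o with _ | p0
    · simp [TCH_set] at hp
    · simp only [TCH_set] at hp
      split_ifs at hp with h
      · simp at hp
      · rw [Finset.mem_singleton] at hp
        subst hp
        omega
  | bit p0 f ih =>
    intro τ p hp
    simp only [TCH_set] at hp
    split_ifs at hp with h h'
    · exact ih _ τ p hp
    · rw [not_or, not_le] at h
      rw [Finset.mem_insert] at hp
      rcases hp with rfl | hp
      · exact h.2
      · simp at hp
    · rw [not_or, not_le] at h
      rw [Finset.mem_insert] at hp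
      rcases hp with rfl | hp
      · exact h.2
      · exact ih _ τ p hp
  | pre o f ih =>
    intro τ p hp
    by_cases h : rk r o ≤ τ
    · by_cases h' : fs (H591R3.PHG.val s z) o
      · rcases hn : nextP r (H591R3.PHG.val s z) (rk r o) with _ | p1
        · rw [TCH_set_pre2 r h h' hn] at hp
          exact ih _ τ p hp
        · rw [TCH_set_pre3 r h h' hn] at hp
          exact lt_of_le_of_lt (le_max_left _ _) (ih _ _ p hp)
      · rw [TCH_set_pre1 r h h'] at hp
        exact ih _ τ p hp
    · rcases o with _ | p1
      · exact absurd (Nat.zero_le τ) h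
      · by_cases h' : H591R3.PHG.val s z p1 = true
        · rw [TCH_set_pre4 r h h', Finset.mem_singleton] at hp
          subst hp
          exact not_le.1 h
        · rw [TCH_set_pre5 r h h', Finset.mem_insert] at hp
          rcases hp with rfl | hp
          · exact not_le.1 h
          · exact ih _ τ p hp

/-- the number of touched positions -/
theorem TCH_card (s : X × Fin c → Option Bool) (z : X × Fin c → Bool) (G : Gm (X × Fin c)) :
    ∀ (τ R : ℕ), Bd G R → (TCH_set r s z G τ).card ≤ R := by
  induction G with
  | out o =>
    intro τ R hR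
    have hR' : 1 ≤ R := hR
    rcases o with _ | p0
    · simp [TCH_set]
    · simp only [TCH_set]
      split_ifs
      · simp
      · rw [Finset.card_singleton]
        exact hR'
  | bit p0 f ih =>
    intro τ R hR
    obtain ⟨R', h1, h2⟩ := hR
    simp only [TCH_set]
    split_ifs
    · exact (ih _ τ R' (h2 _)).trans (by omega)
    · refine (Finset.card_insert_le _ _).trans ?_
      simp only [Finset.card_empty]
      omega
    · refine (Finset.card_insert_le _ _).trans ?_
      have := ih false τ R' (h2 _)
      omega
  | pre o f ih =>
    intro τ R hR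
    obtain ⟨R', h1, h2⟩ := hR
    by_cases h : rk r o ≤ τ
    · by_cases h' : fs (H591R3.PHG.val s z) o
      · rcases hn : nextP r (H591R3.PHG.val s z) (rk r o) with _ | p1
        · rw [TCH_set_pre2 r h h' hn]
          exact (ih _ τ R' (h2 _)).trans (by omega)
        · rw [TCH_set_pre3 r h h' hn]
          exact (ih _ _ R' (h2 _)).trans (by omega)
      · rw [TCH_set_pre1 r h h']
        exact (ih _ τ R' (h2 _)).trans (by omega)
    · rcases o with _ | p1
      · exact absurd (Nat.zero_le τ) h
      · by_cases h' : H591R3.PHG.val s z p1 = true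
        · rw [TCH_set_pre4 r h h', Finset.card_singleton]
          omega
        · rw [TCH_set_pre5 r h h']
          refine (Finset.card_insert_le _ _).trans ?_
          have := ih (some none) τ R' (h2 _)
          omega

/-- monotonicity: deleting a true touched position -/
theorem TCH_mono {r : X → ℕ} (hr : Function.Injective r) (s : X × Fin c → Option Bool)
    (z : X × Fin c → Bool) (p : X × Fin c) (hsp : s p = none) (G : Gm (X × Fin c)) :
    ∀ (τ : ℕ), p ∈ TCH_set r s z G τ → p ∈ TCH_set r s (Function.update z p false) G τ := by
  have hz : ∀ p', p' ≠ p → Function.update z p false p' = z p' :=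
    fun p' hp' => Function.update_of_ne hp' _ _
  have hv : ∀ p', p' ≠ p → val s (Function.update z p false) p' = val s z p' := by
    intro p' hp'
    simp only [H591R3.PHG.val, hz p' hp']
  have hvp : val s (Function.update z p false) p = false := by
    simp only [H591R3.PHG.val, hsp, Function.update_self, Option.getD_none]
  have hle : ∀ p', val s (Function.update z p false) p' = true → val s z p' = true := by
    intro p' hp'
    by_cases h : p' = p
    · rw [h, hvp] at hp'
      exact absurd hp' (by simp)
    · rw [← hv p' h]
      exact hp'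
  induction G with
  | out o =>
    intro τ hp
    exact hp
  | bit p0 f ih =>
    intro τ hp
    have hfr := TCH_frontier r s z _ τ p hp
    simp only [TCH_set] at hp ⊢
    split_ifs at hp with h h'
    · rw [if_pos h]
      have hne : p0 ≠ p := by
        rintro rfl
        rcases h with h | h
        · exact h hsp
        · omega
      rw [hz p0 hne]
      exact ih _ τ hp
    · rw [if_neg h]
      rw [Finset.mem_insert] at hp
      rcases hp with rfl | hp
      · exact Finset.mem_insert_self _ _
      · simp at hp
    · rw [if_neg h]
      rw [Finset.mem_insert] at hp ⊢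
      rcases hp with hp | hp
      · exact Or.inl hp
      · by_cases hne : p0 = p
        · exact Or.inl hne.symm
        · refine Or.inr ?_
          rw [hz p0 hne, if_neg h']
          exact ih _ τ hp
  | pre o f ih =>
    intro τ hp
    have hfr := TCH_frontier r s z _ τ p hp
    by_cases h : rk r o ≤ τ
    · have hfs : fs (H591R3.PHG.val s (Function.update z p false)) o ↔
          fs (H591R3.PHG.val s z) o := by
        rcases o with _ | p0
        · exact Iff.rfl
        · have hne : p0 ≠ p := by
            rintro rfl
            simp only [rk] at h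
            omega
          simp only [fs, hv p0 hne]
      by_cases h' : fs (H591R3.PHG.val s z) o
      · rcases hn : nextP r (H591R3.PHG.val s z) (rk r o) with _ | p1
        · rw [TCH_set_pre2 r h h' hn] at hp
          have hn' : nextP r (H591R3.PHG.val s (Function.update z p false)) (rk r o) = none := by
            rcases hn' : nextP r (H591R3.PHG.val s (Function.update z p false)) (rk r o) with _ | p2
            · rfl
            · exfalso
              obtain ⟨h4, h5, -⟩ := TCH_next_some hn'
              have := TCH_next_none hn p2 (hle p2 h4)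
              omega
          rw [TCH_set_pre2 r h (hfs.2 h') hn']
          exact ih _ τ hp
        · rw [TCH_set_pre3 r h h' hn] at hp
          obtain ⟨h4, h5, h6⟩ := TCH_next_some hn
          have h7 := TCH_frontier r s z _ _ p hp
          have hne : p1 ≠ p := by
            rintro rfl
            have := le_max_right τ (r p1.1)
            omega
          have hn' : nextP r (H591R3.PHG.val s (Function.update z p false)) (rk r o) = some p1 :=
            TCH_next_eq hr (by rw [hv p1 hne]; exact h4) h5
              (fun p' hp' hp'' => h6 p' (hle p' hp') hp'')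
          rw [TCH_set_pre3 r h (hfs.2 h') hn']
          exact ih _ _ hp
      · rw [TCH_set_pre1 r h h'] at hp
        rw [TCH_set_pre1 r h (fun h'' => h' (hfs.1 h''))]
        exact ih _ τ hp
    · rcases o with _ | p0
      · exact absurd (Nat.zero_le τ) h
      · by_cases h' : H591R3.PHG.val s z p0 = true
        · rw [TCH_set_pre4 r h h', Finset.mem_singleton] at hp
          subst hp
          have h1 : ¬ H591R3.PHG.val s (Function.update z p false) p = true := by
            rw [hvp]; simp
          rw [TCH_set_pre5 r h h1]
          exact Finset.mem_insert_self _ _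
        · rw [TCH_set_pre5 r h h', Finset.mem_insert] at hp
          rw [TCH_set_pre5 r h (fun h2 => h' (hle p0 h2)), Finset.mem_insert]
          rcases hp with hp | hp
          · exact Or.inl hp
          · exact Or.inr (ih _ τ hp)

open Classical in
/-- if all touched positions are false, the protocol loses -/
theorem TCH_lose {r : X → ℕ} (hr : Function.Injective r) (s : X × Fin c → Option Bool)
    (z : X × Fin c → Bool) (G : Gm (X × Fin c)) :
    ∀ (τ q : ℕ), (∀ p ∈ TCH_set r s z G τ, val s z p = false) → Bp G q →
      q + 1 ≤ (univ.filter (fun j : X => (∃ i : Fin c, val s z (j, i) = true) ∧ τ < r j)).card →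
      ¬ Win r (val s z) (play r (val s z) z G) := by
  induction G with
  | out o =>
    intro τ q hT _ hq hw
    have h1 : 0 < (univ.filter (fun j : X => (∃ i : Fin c, val s z (j, i) = true) ∧ τ < r j)).card := by
      omega
    obtain ⟨j, hj⟩ := Finset.card_pos.1 h1
    rw [Finset.mem_filter] at hj
    obtain ⟨-, ⟨i, hi⟩, hj⟩ := hj
    have h2 := hw.2 (j, i) hi
    have h3 := hw.1
    simp only [play] at h2 h3
    rcases o with _ | p0
    · simp only [rk] at h2
      omega
    · simp only [rk] at h2
      simp only [fs] at h3
      have h4 := hT p0 (by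
        simp only [TCH_set]
        rw [if_neg (by omega)]
        exact Finset.mem_singleton_self _)
      rw [h4] at h3
      exact absurd h3 (by simp)
  | bit p0 f ih =>
    intro τ q hT hB hq
    simp only [play]
    simp only [TCH_set] at hT
    split_ifs at hT with h h'
    · exact ih _ τ q hT (hB _) hq
    · exfalso
      have h1 := hT p0 (Finset.mem_insert_self _ _)
      rw [not_or, not_not] at h
      simp only [H591R3.PHG.val, h.1, Option.getD_none] at h1
      rw [h1] at h'
      exact absurd h' (by simp)
    · have h2 : z p0 = false := by simpa using h'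
      rw [h2]
      exact ih _ τ q (fun p hp => hT p (Finset.mem_insert_of_mem hp)) (hB _) hq
  | pre o f ih =>
    intro τ q hT hB hq
    obtain ⟨q', h1, h2⟩ := hB
    simp only [play]
    by_cases h : rk r o ≤ τ
    · by_cases h' : fs (H591R3.PHG.val s z) o
      · unfold ans
        rw [if_pos h']
        rcases hn : nextP r (H591R3.PHG.val s z) (rk r o) with _ | p1
        · rw [TCH_set_pre2 r h h' hn] at hT
          exact ih _ τ q' hT (h2 _) (by omega)
        · rw [TCH_set_pre3 r h h' hn] at hT
          obtain ⟨h4, h5, h6⟩ := TCH_next_some hn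
          refine ih _ (max τ (r p1.1)) q' hT (h2 _) ?_
          have h7 : (univ.filter (fun j : X => (∃ i : Fin c, H591R3.PHG.val s z (j, i) = true) ∧
              τ < r j)) ⊆
              insert p1.1 (univ.filter (fun j : X => (∃ i : Fin c, H591R3.PHG.val s z (j, i) = true) ∧
                max τ (r p1.1) < r j)) := by
            intro j hj
            rw [Finset.mem_filter] at hj
            obtain ⟨-, ⟨i, hi⟩, hj⟩ := hj
            rw [Finset.mem_insert, Finset.mem_filter]
            by_cases h8 : max τ (r p1.1) < r j
            · exact Or.inr ⟨Finset.mem_univ _, ⟨i, hi⟩, h8⟩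
            · left
              have h9 : r p1.1 ≤ r j :=
                TCH_key_le (h6 (j, i) hi (by change rk r o < r j; omega))
              apply hr
              rw [max_lt_iff, not_and_or] at h8
              omega
          have h8 := (Finset.card_le_card h7).trans (Finset.card_insert_le _ _)
          omega
      · rw [TCH_set_pre1 r h h'] at hT
        unfold ans
        rw [if_neg h']
        exact ih _ τ q' hT (h2 _) (by omega)
    · rcases o with _ | p0
      · exact absurd (Nat.zero_le τ) h
      · by_cases h' : H591R3.PHG.val s z p0 = true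
        · exfalso
          rw [TCH_set_pre4 r h h'] at hT
          have h3 := hT p0 (Finset.mem_singleton_self _)
          rw [h3] at h'
          exact absurd h' (by simp)
        · rw [TCH_set_pre5 r h h'] at hT
          unfold ans
          have h4 : ¬ fs (H591R3.PHG.val s z) (some p0) := h'
          rw [if_neg h4]
          exact ih _ τ q' (fun p hp => hT p (Finset.mem_insert_of_mem hp)) (h2 _) (by omega)

end

theorem tch_exists {X : Type} [Fintype X] [DecidableEq X] {c : ℕ} (r : X → ℕ)
    (hr : Function.Injective r) (hr0 : ∀ j, 0 < r j) (s : X × Fin c → Option Bool)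
    (hs : ∀ p, s p ≠ some true) (G : Gm (X × Fin c)) {R q : ℕ} (hR : Bd G R) (hq : Bp G q) :
    ∃ Tc : (X × Fin c → Bool) → Finset (X × Fin c),
      (∀ z p, s p = none → p ∈ Tc z → z p = true → p ∈ Tc (Function.update z p false)) ∧
      (∀ z, (Tc z).card ≤ R) ∧
      (∀ z, (∀ p ∈ Tc z, val s z p = false) → q < nfeas (val s z) →
        ¬ Win r (val s z) (play r (val s z) z G)) := by
  classical
  refine ⟨fun z => TCH_set r s z G 0, ?_, ?_, ?_⟩
  · intro z p hsp hp _
    exact TCH_mono hr s z p hsp G 0 hp
  · intro z
    exact TCH_card r s z G 0 R hR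
  · intro z hT hlt
    refine TCH_lose hr s z G 0 q hT hq ?_
    unfold nfeas at hlt
    have h1 : (univ.filter (fun j : X => (∃ i : Fin c, val s z (j, i) = true) ∧ 0 < r j)) =
        univ.filter (fun j : X => ∃ i : Fin c, val s z (j, i) = true) := by
      apply Finset.filter_congr
      intro j _
      simp [hr0 j]
    rw [h1]
    exact hlt

end Pool.Agent.H585R2.CC
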