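import Pool.Agent.H585R2.CC.GDefs
import Pool.Agent.H585R2.CC.Tch

/-!
Task GAM (helper61): the probability bound for the game.
-/

set_option autoImplicit false

namespace Pool.Agent.H585R2.CC

open Finset H568R2 Pool.Agent.H676 Pool.Agent.H620R2.Gauge Pool.Agent.NPC Pool.Agent.H591R3.PHG

section
variable {I : Type} [Fintype I] [DecidableEq I]

open Classical in
/-- a touched true free position -/
theorem GAM_pos {t : ℝ} (ht0 : 0 ≤ t) (ht : t ≤ 1 / 2) (Tc : (I → Bool) → Finset I) (p : I)
    (h : ∀ z, p ∈ Tc z → z p = true → p ∈ Tc (Function.update z p false)) :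
    Ex (ber t) (fun z : I → Bool => if p ∈ Tc z ∧ z p = true then (1 : ℝ) else 0) ≤
      2 * t * Ex (ber t) (fun z : I → Bool => if p ∈ Tc z then (1 : ℝ) else 0) := by
  have hw0 : ∀ a, 0 ≤ ber t a := by
    intro a
    unfold ber
    split_ifs
    · exact ht0
    · linarith
  have hw1 : ∑ a, ber t a = 1 := by
    simp [ber]
  set H : (I → Bool) → ℝ := fun z => if p ∈ Tc z ∧ z p = false then (1 : ℝ) else 0 with hH
  have hH1 : Ex (ber t) H ≤ Ex (ber t) (fun z : I → Bool => if p ∈ Tc z then (1 : ℝ) else 0) := by
    apply Ex_mono hw0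
    intro z
    simp only [hH]
    split_ifs with h1 h2 h2
    · exact le_rfl
    · exact absurd h1.1 h2
    · exact zero_le_one
    · exact le_rfl
  have hH2 : Ex (ber t) H = Ex (ber t) (fun z => (1 - t) * H (Function.update z p false)) := by
    rw [Ex_resample hw1 H p]
    congr 1
    funext z
    rw [Fintype.sum_bool]
    have e1 : H (Function.update z p true) = 0 := by
      simp [hH]
    rw [e1]
    simp [ber]
  have hF : Ex (ber t) (fun z : I → Bool => if p ∈ Tc z ∧ z p = true then (1 : ℝ) else 0) ≤
      Ex (ber t) (fun z => (2 * t) * ((1 - t) * H (Function.update z p false))) := by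
    rw [Ex_resample hw1 _ p]
    apply Ex_mono hw0
    intro z
    rw [Fintype.sum_bool]
    have e2 : (if p ∈ Tc (Function.update z p false) ∧ Function.update z p false p = true
        then (1 : ℝ) else 0) = 0 := by
      simp
    rw [e2, mul_zero, add_zero]
    have e3 : (if p ∈ Tc (Function.update z p true) ∧ Function.update z p true p = true
        then (1 : ℝ) else 0) ≤ H (Function.update z p false) := by
      simp only [hH, Function.update_self]
      split_ifs with h1 h2 h2
      · exact le_rfl
      · exfalso
        have h3 := h (Function.update z p true) h1.1 (by simp)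
        rw [Function.update_idem] at h3
        exact h2 ⟨h3, trivial⟩
      · exact zero_le_one
      · exact le_rfl
    have hHn : 0 ≤ H (Function.update z p false) := by
      simp only [hH]
      split_ifs
      · exact zero_le_one
      · exact le_rfl
    have e4 : ber t true = t := by simp [ber]
    rw [e4]
    nlinarith [mul_le_mul_of_nonneg_left e3 ht0, mul_nonneg ht0 hHn,
      mul_nonneg (mul_nonneg ht0 hHn) (by linarith : (0 : ℝ) ≤ 1 - 2 * t)]
  rw [Ex_smul, ← hH2] at hF
  refine hF.trans ?_
  exact mul_le_mul_of_nonneg_left hH1 (by positivity)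

end

open Classical in
theorem game_bound {X : Type} [Fintype X] [DecidableEq X] {c : ℕ} (r : X → ℕ)
    (hr : Function.Injective r) (hr0 : ∀ j, 0 < r j) {t : ℝ} (ht0 : 0 ≤ t) (ht : t ≤ 1 / 2)
    (s : X × Fin c → Option Bool) (hs : ∀ p, s p ≠ some true) (G : Gm (X × Fin c)) {R q : ℕ}
    (hR : Bd G R) (hq : Bp G q) :
    Ex (ber t) (fun z : X × Fin c → Bool =>
      if Win r (val s z) (play r (val s z) z G) then (1 : ℝ) else 0) ≤
      2 * t * R + Ex (ber t) (fun z : X × Fin c → Bool =>
        if nfeas (val s z) ≤ q then (1 : ℝ) else 0) := by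
  have hw0 : ∀ a, 0 ≤ ber t a := by
    intro a
    unfold ber
    split_ifs
    · exact ht0
    · linarith
  have hw1 : ∑ a, ber t a = 1 := by
    simp [ber]
  obtain ⟨Tc, h1, h2, h3⟩ := tch_exists r hr hr0 s hs G hR hq
  have hpt : ∀ z : X × Fin c → Bool,
      (if Win r (val s z) (play r (val s z) z G) then (1 : ℝ) else 0) ≤
      (∑ p : X × Fin c, if p ∈ Tc z ∧ val s z p = true then (1 : ℝ) else 0) +
        (if nfeas (val s z) ≤ q then (1 : ℝ) else 0) := by
    intro z
    have hS : 0 ≤ ∑ p : X × Fin c, if p ∈ Tc z ∧ val s z p = true then (1 : ℝ) else 0 :=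
      Finset.sum_nonneg fun p _ => by split_ifs <;> norm_num
    by_cases hW : Win r (val s z) (play r (val s z) z G)
    · rw [if_pos hW]
      by_cases hn : nfeas (val s z) ≤ q
      · rw [if_pos hn]
        linarith
      · rw [if_neg hn, add_zero]
        have h4 : ¬ ∀ p ∈ Tc z, val s z p = false := fun h => h3 z h (not_le.1 hn) hW
        push Not at h4
        obtain ⟨p, hp, hpv⟩ := h4
        have h5 : val s z p = true := by
          cases h : val s z p
          · exact absurd h hpv
          · rfl
        have h6 := Finset.single_le_sum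
          (f := fun p : X × Fin c => if p ∈ Tc z ∧ val s z p = true then (1 : ℝ) else 0)
          (fun p _ => by split_ifs <;> norm_num) (Finset.mem_univ p)
        beta_reduce at h6
        rw [if_pos ⟨hp, h5⟩] at h6
        exact h6
    · rw [if_neg hW]
      have : (0 : ℝ) ≤ if nfeas (val s z) ≤ q then (1 : ℝ) else 0 := by split_ifs <;> norm_num
      linarith
  have hstep : ∀ p : X × Fin c,
      Ex (ber t) (fun z : X × Fin c → Bool =>
        if p ∈ Tc z ∧ val s z p = true then (1 : ℝ) else 0) ≤
      2 * t * Ex (ber t) (fun z : X × Fin c → Bool => if p ∈ Tc z then (1 : ℝ) else 0) := by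
    intro p
    have hpos : 0 ≤ Ex (ber t) (fun z : X × Fin c → Bool => if p ∈ Tc z then (1 : ℝ) else 0) :=
      Ex_nonneg hw0 fun z => by split_ifs <;> norm_num
    rcases hsp : s p with _ | b
    · have hv : ∀ z : X × Fin c → Bool, val s z p = z p := by
        intro z
        simp [H591R3.PHG.val, hsp]
      simp only [hv]
      exact GAM_pos ht0 ht Tc p fun z hz hzp => h1 z p hsp hz hzp
    · cases b
      · have hv : ∀ z : X × Fin c → Bool, val s z p = false := by
          intro z
          simp [H591R3.PHG.val, hsp]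
        have h0 : Ex (ber t) (fun z : X × Fin c → Bool =>
            if p ∈ Tc z ∧ val s z p = true then (1 : ℝ) else 0) = 0 := by
          simp [hv, Ex]
        rw [h0]
        positivity
      · exact absurd hsp (hs p)
  calc Ex (ber t) (fun z : X × Fin c → Bool =>
      if Win r (val s z) (play r (val s z) z G) then (1 : ℝ) else 0)
      ≤ Ex (ber t) (fun z : X × Fin c → Bool =>
        (∑ p : X × Fin c, if p ∈ Tc z ∧ val s z p = true then (1 : ℝ) else 0) +
        (if nfeas (val s z) ≤ q then (1 : ℝ) else 0)) := Ex_mono hw0 hpt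
    _ = ∑ p : X × Fin c, Ex (ber t) (fun z : X × Fin c → Bool =>
          if p ∈ Tc z ∧ val s z p = true then (1 : ℝ) else 0) +
        Ex (ber t) (fun z : X × Fin c → Bool =>
          if nfeas (val s z) ≤ q then (1 : ℝ) else 0) := by
        rw [Ex_add, Ex_sum]
    _ ≤ 2 * t * R + Ex (ber t) (fun z : X × Fin c → Bool =>
          if nfeas (val s z) ≤ q then (1 : ℝ) else 0) := by
        refine add_le_add ?_ le_rfl
        calc ∑ p : X × Fin c, Ex (ber t) (fun z : X × Fin c → Bool =>
              if p ∈ Tc z ∧ val s z p = true then (1 : ℝ) else 0)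
            ≤ ∑ p : X × Fin c, 2 * t * Ex (ber t) (fun z : X × Fin c → Bool =>
                if p ∈ Tc z then (1 : ℝ) else 0) := Finset.sum_le_sum fun p _ => hstep p
          _ = 2 * t * Ex (ber t) (fun z : X × Fin c → Bool =>
                ∑ p : X × Fin c, if p ∈ Tc z then (1 : ℝ) else 0) := by
              rw [Ex_sum, Finset.mul_sum]
          _ ≤ 2 * t * Ex (ber t) (fun _ : X × Fin c → Bool => (R : ℝ)) := by
              refine mul_le_mul_of_nonneg_left (Ex_mono hw0 fun z => ?_) (by positivity)
              rw [Finset.sum_ite_mem, Finset.univ_inter, Finset.sum_const, nsmul_eq_mul, mul_one]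
              exact_mod_cast h2 z
          _ = 2 * t * R := by rw [Ex_const hw1]

end Pool.Agent.H585R2.CC
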