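import Pool.Agent.H585R2.CC.Ins

/-! The adversary is legal. -/

set_option autoImplicit false

namespace Pool.Agent.H585R2.CC

open Finset H568R2 Pool.Agent.H676 Pool.Agent.H620R2.Gauge Pool.Agent.NPC Pool.Agent.H591R3.PHG

theorem leg_next_none {X : Type} [Fintype X] [DecidableEq X] {c : ℕ} (r : X → ℕ)
    (v : X × Fin c → Bool) (τ : ℕ) (h : nextP r v τ = none) :
    ∀ p, v p = true → r p.1 ≤ τ := by
  intro p hp
  unfold nextP at h
  split_ifs at h with hne
  refine le_of_not_gt fun hlt => hne ⟨p, ?_⟩
  unfold cand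
  rw [mem_filter]
  exact ⟨mem_univ _, hp, hlt⟩

theorem leg_next_some {X : Type} [Fintype X] [DecidableEq X] {c : ℕ} (r : X → ℕ)
    (v : X × Fin c → Bool) (τ : ℕ) (p : X × Fin c) (h : nextP r v τ = some p) :
    v p = true ∧ τ < r p.1 := by
  unfold nextP at h
  split_ifs at h with hne
  have h1 := (Finset.exists_min_image (cand r v τ) (key r) hne).choose_spec.1
  have h2 := Option.some.inj h
  rw [h2] at h1
  unfold cand at h1
  rw [mem_filter] at h1
  exact h1.2

theorem leg_le_of_len {y : ℕ} {s : List Bool} (h : (str y).length < s.length) : y ≤ idx s := by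
  have h1 := idx_lt (str y)
  rw [idx_str] at h1
  have h2 := le_idx s
  have h3 : 2 ^ ((str y).length + 1) ≤ 2 ^ s.length :=
    Nat.pow_le_pow_right (by norm_num) h
  omega

theorem optimal_inst (A : Oracle) (k : ℕ) (as : List ℕ) (hk : as.length = k) (a L w : ℕ)
    (hL : 1 ≤ L) (y : ℕ) :
    Optimal (Crel k A) rho (idx (inst as a L w)) y ↔
      ∃ o, dcS as a L w y = some o ∧ Win (rB L) (vv as a L w A) o := by
  unfold Optimal
  constructor
  · rintro ⟨h1, h2⟩
    obtain ⟨o, ho, hf⟩ := (Crel_inst A k as hk a L w y).1 h1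
    refine ⟨o, ho, hf, fun p hp => ?_⟩
    have h3 : dcS as a L w (cdS a L (some p)) = some (some p) := dcS_cdS as a L w hL (some p)
    have h4 := h2 (cdS a L (some p)) ((Crel_inst A k as hk a L w _).2 ⟨some p, h3, hp⟩)
    rw [rho_dcS as a L w _ _ h3, rho_dcS as a L w _ _ ho] at h4
    exact h4
  · rintro ⟨o, ho, hf, hw⟩
    refine ⟨(Crel_inst A k as hk a L w y).2 ⟨o, ho, hf⟩, fun z hz => ?_⟩
    obtain ⟨o', ho', hf'⟩ := (Crel_inst A k as hk a L w z).1 hz
    rw [rho_dcS as a L w _ _ ho, rho_dcS as a L w _ _ ho']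
    cases o' with
    | none => exact Nat.zero_le _
    | some p => exact hw p hf'

theorem legal_inst (A : Oracle) (k : ℕ) (as : List ℕ) (hk : as.length = k) (a L w : ℕ)
    (hL : 1 ≤ L) :
    Legal (Crel k A) rho (idx (inst as a L w))
      (fun _ y => advT (rB L) (dcS as a L w) (cdS a L) (vv as a L w A) y) := by
  intro _ y
  have hno : ¬ Crel k A (idx (inst as a L w)) y →
      ¬ Optimal (Crel k A) rho (idx (inst as a L w)) y ∧ (0:ℕ) ≤ idx (inst as a L w) ∧
        ¬ BB (Crel k A) rho (idx (inst as a L w)) y 0 :=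
    fun h => ⟨fun h' => h h'.1, Nat.zero_le _, fun h' => h h'.1⟩
  simp only [advT]
  cases ho : dcS as a L w y with
  | none =>
    have hC : ¬ Crel k A (idx (inst as a L w)) y := by
      intro h
      obtain ⟨o, ho', -⟩ := (Crel_inst A k as hk a L w y).1 h
      rw [ho] at ho'
      exact absurd ho' (by simp)
    refine ⟨fun h => absurd h (by simp), fun z hz => ?_⟩
    have hz' : 0 = z := Option.some.inj hz
    rw [← hz']
    exact hno hC
  | some o =>
    simp only [ans]
    by_cases hf : fs (vv as a L w A) o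
    · rw [if_pos hf]
      cases hn : nextP (rB L) (vv as a L w A) (rk (rB L) o) with
      | none =>
        refine ⟨fun _ => ?_, fun z hz => absurd hz (by simp)⟩
        exact (optimal_inst A k as hk a L w hL y).2 ⟨o, ho, hf, leg_next_none _ _ _ hn⟩
      | some p =>
        obtain ⟨hp, hr⟩ := leg_next_some _ _ _ _ hn
        refine ⟨fun h => absurd h (by simp), fun z hz => ?_⟩
        have hz' : cdS a L (some p) = z := Option.some.inj hz
        rw [← hz']
        have h3 : dcS as a L w (cdS a L (some p)) = some (some p) := dcS_cdS as a L w hL (some p)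
        refine ⟨fun h => ?_, leg_le_of_len (cdS_len as a L w (some p)), fun h => ?_⟩
        · obtain ⟨o', ho', hw⟩ := (optimal_inst A k as hk a L w hL y).1 h
          rw [ho] at ho'
          have : o = o' := Option.some.inj ho'
          rw [← this] at hw
          have := hw.2 p hp
          omega
        · refine h.2 ?_ ((Crel_inst A k as hk a L w _).2 ⟨some p, h3, hp⟩)
          rw [rho_dcS as a L w _ _ h3, rho_dcS as a L w _ _ ho]
          exact hr
    · rw [if_neg hf]
      have hC : ¬ Crel k A (idx (inst as a L w)) y := by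
        intro h
        obtain ⟨o', ho', hf'⟩ := (Crel_inst A k as hk a L w y).1 h
        rw [ho] at ho'
        have : o = o' := Option.some.inj ho'
        rw [← this] at hf'
        exact hf hf'
      refine ⟨fun h => absurd h (by simp), fun z hz => ?_⟩
      have hz' : 0 = z := Option.some.inj hz
      rw [← hz']
      exact hno hC

end Pool.Agent.H585R2.CC
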