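import Pool.Agent.H585R2.CC.Defs
import Pool.Agent.H620R2.Gauge.Y

/-! Numbers: the bound tends to zero; lengths; locality of the computations. -/

set_option autoImplicit false

namespace Pool.Agent.H585R2.CC

open Finset H568R2 Pool.Agent.H676 Pool.Agent.H620R2.Gauge Pool.Agent.NPC Pool.Agent.H591R3.PHG

open Filter

theorem num_pow (u : ℕ) : u + 1 ≤ 2 ^ u := Nat.lt_two_pow_self

theorem num_bound {k q0 Mx T u n : ℕ} (hn : n = 8 * u) (hu : 2 ≤ u) (hq : q0 ≤ 2 ^ u)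
    (hM : Mx + 1 ≤ 2 ^ u) (hT : T ≤ 2 ^ u) :
    (k : ℝ) * ((Mx + 1) * (2 ^ T * (1 / 2) ^ (2 ^ (2 * u) + 1))) +
      2 ^ (u + 11) * (2 * (1 / 2 ^ (2 * n))) +
      2 * (1 / 2 ^ (4 * n)) * ((q0 * (2 ^ (2 * u) + 1) + 1 : ℕ) : ℝ) +
      2 ^ q0 * (9 / 10) ^ (2 ^ (u + 11)) ≤ (k + 3) * (1 / 2) ^ u := by
  have hu1 : u + 1 ≤ 2 ^ u := num_pow u
  have e2 : 2 ^ (2 * u) = 2 ^ u * 2 ^ u := by rw [two_mul, pow_add]
  -- first term
  have h1 : (k : ℝ) * ((Mx + 1) * (2 ^ T * (1 / 2) ^ (2 ^ (2 * u) + 1))) ≤ k * (1 / 2) ^ u := by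
    apply mul_le_mul_of_nonneg_left _ (Nat.cast_nonneg k)
    have a1 : ((Mx : ℝ) + 1) ≤ 2 ^ u := by exact_mod_cast hM
    have a2 : (2 : ℝ) ^ T ≤ 2 ^ (2 ^ u) := pow_le_pow_right₀ (by norm_num) hT
    have a3 : u + u + 2 ^ u ≤ 2 ^ (2 * u) + 1 := by
      rw [e2]
      have : 2 ^ u * (u + 1) ≤ 2 ^ u * 2 ^ u := Nat.mul_le_mul_left _ hu1
      have h4 : 4 ≤ 2 ^ u := by
        calc 4 = 2 ^ 2 := by norm_num
          _ ≤ 2 ^ u := Nat.pow_le_pow_right (by norm_num) hu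
      nlinarith
    have a4 : (1 / 2 : ℝ) ^ (2 ^ (2 * u) + 1) ≤ (1 / 2) ^ (u + u + 2 ^ u) :=
      pow_le_pow_of_le_one (by norm_num) (by norm_num) a3
    calc ((Mx : ℝ) + 1) * (2 ^ T * (1 / 2) ^ (2 ^ (2 * u) + 1))
        ≤ 2 ^ u * (2 ^ (2 ^ u) * (1 / 2) ^ (u + u + 2 ^ u)) := by
          apply mul_le_mul a1 _ (by positivity) (by positivity)
          exact mul_le_mul a2 a4 (by positivity) (by positivity)
      _ = (1 / 2) ^ u := by
          rw [pow_add (1 / 2 : ℝ) (u + u), pow_add (1 / 2 : ℝ) u u]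
          have b1 : (2 : ℝ) ^ u * (1 / 2) ^ u = 1 := by rw [← mul_pow]; norm_num
          have b2 : (2 : ℝ) ^ (2 ^ u) * (1 / 2) ^ (2 ^ u) = 1 := by rw [← mul_pow]; norm_num
          calc (2 : ℝ) ^ u * (2 ^ (2 ^ u) * ((1 / 2) ^ u * (1 / 2) ^ u * (1 / 2) ^ (2 ^ u)))
              = (2 ^ u * (1 / 2) ^ u) * (2 ^ (2 ^ u) * (1 / 2) ^ (2 ^ u)) * (1 / 2) ^ u := by ring
            _ = (1 / 2) ^ u := by rw [b1, b2]; ring
  -- second term
  have h2 : (2 : ℝ) ^ (u + 11) * (2 * (1 / 2 ^ (2 * n))) ≤ (1 / 2) ^ u := by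
    have a1 : (2 : ℝ) ^ (u + 11) * (2 * (1 / 2 ^ (2 * n))) = 2 ^ (u + 12) * (1 / 2) ^ (2 * n) := by
      rw [one_div_pow, pow_succ (2 : ℝ) (u + 11)]; ring
    rw [a1]
    have a2 : (1 / 2 : ℝ) ^ (2 * n) ≤ (1 / 2) ^ (u + 12 + u) :=
      pow_le_pow_of_le_one (by norm_num) (by norm_num) (by omega)
    calc (2 : ℝ) ^ (u + 12) * (1 / 2) ^ (2 * n) ≤ 2 ^ (u + 12) * (1 / 2) ^ (u + 12 + u) :=
          mul_le_mul_of_nonneg_left a2 (by positivity)
      _ = (2 * (1 / 2)) ^ (u + 12) * (1 / 2) ^ u := by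
          rw [pow_add (1 / 2 : ℝ) (u + 12), mul_pow]; ring
      _ = (1 / 2) ^ u := by norm_num
  -- third term
  have h3 : 2 * (1 / 2 ^ (4 * n)) * ((q0 * (2 ^ (2 * u) + 1) + 1 : ℕ) : ℝ) ≤ (1 / 2) ^ u := by
    have a0 : q0 * (2 ^ (2 * u) + 1) + 1 ≤ 2 ^ (3 * u + 2) := by
      have e3 : 2 ^ (3 * u + 2) = 4 * (2 ^ u * 2 ^ (2 * u)) := by
        rw [← pow_add, pow_add 2 (3 * u) 2, show u + 2 * u = 3 * u by ring]; ring
      rw [e3]
      have c1 : 1 ≤ 2 ^ (2 * u) := Nat.one_le_two_pow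
      have c2 : 1 ≤ 2 ^ u := Nat.one_le_two_pow
      have c3 : q0 * (2 ^ (2 * u) + 1) ≤ 2 ^ u * (2 ^ (2 * u) + 1) := Nat.mul_le_mul_right _ hq
      nlinarith [Nat.mul_le_mul_left (2 ^ u) c1]
    have a1 : ((q0 * (2 ^ (2 * u) + 1) + 1 : ℕ) : ℝ) ≤ 2 ^ (3 * u + 2) := by exact_mod_cast a0
    calc 2 * (1 / 2 ^ (4 * n)) * ((q0 * (2 ^ (2 * u) + 1) + 1 : ℕ) : ℝ)
        ≤ 2 * (1 / 2 ^ (4 * n)) * 2 ^ (3 * u + 2) := mul_le_mul_of_nonneg_left a1 (by positivity)
      _ = 2 ^ (3 * u + 3) * (1 / 2) ^ (4 * n) := by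
          rw [one_div_pow, pow_succ (2 : ℝ) (3 * u + 2)]; ring
      _ ≤ 2 ^ (3 * u + 3) * (1 / 2) ^ (3 * u + 3 + u) := by
          apply mul_le_mul_of_nonneg_left _ (by positivity)
          exact pow_le_pow_of_le_one (by norm_num) (by norm_num) (by omega)
      _ = (2 * (1 / 2)) ^ (3 * u + 3) * (1 / 2) ^ u := by
          rw [pow_add (1 / 2 : ℝ) (3 * u + 3), mul_pow]; ring
      _ = (1 / 2) ^ u := by norm_num
  -- fourth term
  have h4 : (2 : ℝ) ^ q0 * (9 / 10) ^ (2 ^ (u + 11)) ≤ (1 / 2) ^ u := by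
    have a1 : (2 : ℝ) ^ q0 ≤ 2 ^ (2 ^ u) := pow_le_pow_right₀ (by norm_num) hq
    have a2 : (9 / 10 : ℝ) ^ (2 ^ (u + 11)) ≤ (1 / 4) ^ (2 ^ u) := by
      rw [pow_add 2 u 11, mul_comm, pow_mul]
      apply pow_le_pow_left₀ (by positivity)
      calc (9 / 10 : ℝ) ^ 2 ^ 11 ≤ (9 / 10) ^ 16 :=
            pow_le_pow_of_le_one (by norm_num) (by norm_num) (by norm_num)
        _ ≤ 1 / 4 := by norm_num
    calc (2 : ℝ) ^ q0 * (9 / 10) ^ (2 ^ (u + 11)) ≤ 2 ^ (2 ^ u) * (1 / 4) ^ (2 ^ u) :=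
          mul_le_mul a1 a2 (by positivity) (by positivity)
      _ = (1 / 2) ^ (2 ^ u) := by rw [← mul_pow]; norm_num
      _ ≤ (1 / 2) ^ u := pow_le_pow_of_le_one (by norm_num) (by norm_num) (by omega)
  have e : ((k : ℝ) + 3) * (1 / 2) ^ u = k * (1 / 2) ^ u + (1 / 2) ^ u + (1 / 2) ^ u +
    (1 / 2) ^ u := by ring
  rw [e]
  linarith

/-- exponentials beat polynomials -/
theorem poly_growth (P : Polynomial ℕ) : ∀ᶠ u : ℕ in atTop, P.eval (8 * u) ≤ 2 ^ u := by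
  filter_upwards [Y_exp (P.eval 1) 8 P.natDegree, eventually_ge_atTop 1] with u hu h1
  have h2 := Y_poly_le P (8 * u) (by omega)
  have h3 : (8 * u) ^ P.natDegree ≤ (8 * (u + 1)) ^ P.natDegree :=
    Nat.pow_le_pow_left (by omega) _
  have h4 : P.eval 1 * (8 * u) ^ P.natDegree ≤ P.eval 1 * (8 * (u + 1)) ^ P.natDegree :=
    Nat.mul_le_mul_left _ h3
  omega

theorem half_small (k : ℕ) {δ : ℝ} (hδ : 0 < δ) :
    ∀ᶠ u : ℕ in atTop, ((k : ℝ) + 3) * (1 / 2) ^ u ≤ δ := by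
  have h1 : Tendsto (fun u : ℕ => ((k : ℝ) + 3) * (1 / 2) ^ u) atTop (nhds 0) := by
    have := (tendsto_pow_atTop_nhds_zero_of_lt_one (r := (1 / 2 : ℝ)) (by norm_num)
      (by norm_num)).const_mul ((k : ℝ) + 3)
    simpa using this
  exact (h1.eventually (gt_mem_nhds hδ)).mono fun u hu => le_of_lt hu

/-- the next action has polynomially bounded length -/
theorem Comp.next_length (M : Comp) : ∃ b : Polynomial ℕ, ∀ w : List Bool,
    (M.D w).length ≤ b.eval w.length := by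
  obtain ⟨q, hq⟩ := (Pool.Agent.H622R2.poly_of_polyTime M.poly).sz_le
  refine ⟨q.comp (Polynomial.C 4 * Polynomial.X + Polynomial.C 1), fun w => ?_⟩
  have h1 := length_lt_sz (M.D w)
  refine h1.le.trans ((hq _).trans ?_)
  rw [Polynomial.eval_comp]
  apply eval_mono
  have h2 := sz_listBool_le w
  simp only [Polynomial.eval_add, Polynomial.eval_mul, Polynomial.eval_C, Polynomial.eval_X]
  omega

/-- the computation depends on short questions only -/
theorem run_congr (M : Comp) (x : ℕ) {S S' : List Bool → Bool} {T : Adv} {ℓ La : ℕ}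
    (hT : ∀ a y z, T a y = some z → (str z).length ≤ (str x).length)
    (hD : ∀ a q : List Bool, a.length ≤ La → M.D (pairBits (str x) a) = false :: q →
      q.length ≤ ℓ)
    (hS : ∀ q : List Bool, q.length ≤ ℓ → S q = S' q) :
    ∀ (n : ℕ) (a : List Bool), a.length + n * (2 * (str x).length + 2) ≤ La →
      M.run S T x n a = M.run S' T x n a := by
  intro n
  induction n with
  | zero => intro a _; rfl
  | succ n ih =>
    intro a ha
    have e : (n + 1) * (2 * (str x).length + 2) = n * (2 * (str x).length + 2) +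
      (2 * (str x).length + 2) := by ring
    rw [e] at ha
    rcases hq : M.D (pairBits (str x) a) with _ | ⟨b, q⟩
    · simp only [Comp.run, hq]
    · cases b with
      | false =>
        simp only [Comp.run, hq]
        rw [hS q (hD a q (by omega) hq)]
        exact ih _ (by rw [List.length_append, List.length_singleton]; omega)
      | true =>
        rcases q with _ | ⟨b', y⟩
        · simp only [Comp.run, hq]
        · cases b' with
          | true => simp only [Comp.run, hq]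
          | false =>
            simp only [Comp.run, hq]
            rcases hTy : T a (idx y) with _ | z
            · exact ih _ (by rw [List.length_append, List.length_singleton]; omega)
            · have := hT a (idx y) z hTy
              exact ih _ (by
                rw [List.length_append, List.length_cons, length_pairBits, List.length_nil]
                omega)

end Pool.Agent.H585R2.CC
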