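import Pool.Agent.H585R2.CC.GDefs
import Pool.Agent.H591R3.PHG.LangSig
import Pool.Agent.H620R2.Gauge.S

/-! # Task PIL: the relation `Crel` is in `Π_k` (helper55) -/

set_option autoImplicit false

namespace Pool.Agent.H585R2.CC

open Finset H568R2 Pool.Agent.H676 Pool.Agent.H620R2.Gauge Pool.Agent.NPC Pool.Agent.H591R3.PHG
  Pool.Agent.H622R2 Pool.Agent.H591R3.PHG.LangSig

namespace Pil

/-- the innermost string -/
def inn : ℕ → List Bool → List Bool
  | 0, u => u
  | j + 1, u => inn j (unpair u).2

/-- the innermost string `⟨S, ⟨i, j⟩⟩` is replaced by `⟨j, ⟨i, S⟩⟩` -/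
def G : ℕ → List Bool → List Bool
  | 0, s => pairBits (unpair (unpair s).2).2 (pairBits (unpair (unpair s).2).1 (unpair s).1)
  | j + 1, u => pairBits (unpair u).1 (G j (unpair u).2)

theorem poly_inn (j : ℕ) : Poly (inn j) := by
  induction j with
  | zero => exact Poly.id.congr (fun z => rfl)
  | succ j ih => exact (ih.comp (Poly.snd poly_unpair)).congr (fun z => rfl)

theorem poly_G (j : ℕ) : Poly (G j) := by
  have h1 : Poly (fun z : List Bool => (unpair z).1) := Poly.fst poly_unpair
  have h2 : Poly (fun z : List Bool => (unpair z).2) := Poly.snd poly_unpair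
  induction j with
  | zero =>
    exact (poly_pairBits (h2.comp h2) (poly_pairBits (h1.comp h2) h1)).congr (fun z => rfl)
  | succ j ih => exact (poly_pairBits h1 (ih.comp h2)).congr (fun z => rfl)

/-- the lengths are correct -/
def okL (s : List Bool) : Prop :=
  (unpair s).2.length < (unpair s).1.length ∧
    (unpair (unpair s).2).1.length = (unpair (unpair s).1).1.length ∧
    (unpair (unpair s).2).2.length = (unpair (unpair (unpair s).1).2).1.length

instance (s : List Bool) : Decidable (okL s) := by unfold okL; infer_instance

theorem poly_okL : Poly (fun s => decide (okL s)) := by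
  have h1 : Poly (fun z : List Bool => (unpair z).1) := Poly.fst poly_unpair
  have h2 : Poly (fun z : List Bool => (unpair z).2) := Poly.snd poly_unpair
  exact (Poly.decide_and (Poly.decide_lt (Poly.length h2) (Poly.length h1))
    (Poly.decide_and (Poly.decide_eq (Poly.length (h1.comp h2)) (Poly.length (h1.comp h1)))
      (Poly.decide_eq (Poly.length (h2.comp h2)) (Poly.length (h1.comp (h2.comp h1)))))).congr
    (fun s => by unfold okL; congr)

/-- the verifier -/
def VV (k : ℕ) (e : Bool) (A : Oracle) (u : List Bool) : List Bool :=
  if (unpair (inn k u)).2 = [] then [false]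
  else if okL (inn k u) then Ver (k + 2) e A (G k u) else [true]

theorem isFP_VV (k : ℕ) (e : Bool) (A : Oracle) : IsFP A (VV k e A) := by
  have h1 : Poly (fun p : List Bool × List Bool => p.2.all (fun b => !b)) :=
    Poly.all (p := fun _ b => !b) (Poly.snd Poly.id) (Poly.not (Poly.snd Poly.id))
  have h2 : Poly (fun p : List Bool × List Bool => [decide (p.2.all (fun b => !b) = e)]) :=
    Poly.cons (Poly.decide_eq h1 (NPC.Poly.const e)) (NPC.Poly.const [])
  have h3 : Poly (fun p : List Bool × List Bool => inn k p.1) := (poly_inn k).comp (Poly.fst Poly.id)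
  have h4 : Poly (fun p : List Bool × List Bool => (unpair (inn k p.1)).2) :=
    (Poly.snd poly_unpair).comp h3
  have h5 : Poly (fun p : List Bool × List Bool =>
      if (unpair (inn k p.1)).2 = [] then [false]
      else if okL (inn k p.1) then [decide (p.2.all (fun b => !b) = e)] else [true]) :=
    Poly.ite (Poly.decide_eq h4 (NPC.Poly.const [])) (NPC.Poly.const [false])
      (Poly.ite (poly_okL.comp h3) h2 (NPC.Poly.const [true]))
  have h6 : Poly (fun u => Qs (k + 2) (G k u)) := (poly_Qs (k + 2)).comp (poly_G k)
  exact IsFP.tt (A := A) (H := fun p : List Bool × List Bool =>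
      if (unpair (inn k p.1)).2 = [] then [false]
      else if okL (inn k p.1) then [decide (p.2.all (fun b => !b) = e)] else [true]) h6 h5

theorem quant_congr (m : ℕ) (V W : List Bool → List Bool) : ∀ (j i : ℕ) (b : Bool) (u : List Bool),
    (∀ u', inn (i + j) u' = inn i u → (V u' = [true] ↔ W u' = [true])) →
    (Quant m V j b u ↔ Quant m W j b u) := by
  intro j
  induction j with
  | zero => intro i b u h; exact h u rfl
  | succ j ih =>
    intro i b u h
    have key : ∀ w : List Bool, ∀ b, (Quant m V j b (pairBits w u) ↔
        Quant m W j b (pairBits w u)) := by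
      intro w b
      apply ih (i + 1)
      intro u' hu'
      apply h u'
      have : i + (j + 1) = i + 1 + j := by ring
      rw [this, hu']
      simp [inn, unpair_pairBits]
    cases b with
    | true =>
      constructor
      · rintro ⟨w, hw, h1⟩
        exact ⟨w, hw, (key w false).1 h1⟩
      · rintro ⟨w, hw, h1⟩
        exact ⟨w, hw, (key w false).2 h1⟩
    | false =>
      constructor
      · intro h1 w hw
        exact (key w true).1 (h1 w hw)
      · intro h1 w hw
        exact (key w true).2 (h1 w hw)

theorem quant_true (m : ℕ) : ∀ (j : ℕ) (b : Bool) (u : List Bool),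
    Quant m (fun _ => [true]) j b u := by
  intro j
  induction j with
  | zero => intro b u; rfl
  | succ j ih =>
    intro b u
    cases b with
    | true => exact ⟨[], Nat.zero_le _, ih _ _⟩
    | false => exact fun w _ => ih _ _

theorem quant_false (m : ℕ) : ∀ (j : ℕ) (b : Bool) (u : List Bool),
    ¬ Quant m (fun _ => [false]) j b u := by
  intro j
  induction j with
  | zero => intro b u h; simp [Quant] at h
  | succ j ih =>
    intro b u
    cases b with
    | true =>
      rintro ⟨w, _, h⟩
      exact ih _ _ h
    | false =>
      intro h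
      exact ih _ _ (h [] (Nat.zero_le _))

theorem quant_G (m : ℕ) (W : List Bool → List Bool) : ∀ (j i : ℕ) (b : Bool) (u : List Bool),
    (Quant m (fun u => W (G (i + j) u)) j b u ↔ Quant m W j b (G i u)) := by
  intro j
  induction j with
  | zero => intro i b u; exact Iff.rfl
  | succ j ih =>
    intro i b u
    have key : ∀ w : List Bool, ∀ b, (Quant m (fun u => W (G (i + (j + 1)) u)) j b (pairBits w u) ↔
        Quant m W j b (pairBits w (G i u))) := by
      intro w b
      have h1 := ih (i + 1) b (pairBits w u)
      have h2 : i + 1 + j = i + (j + 1) := by ring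
      rw [h2] at h1
      rw [h1]
      simp [G, unpair_pairBits]
    cases b with
    | true =>
      constructor
      · rintro ⟨w, hw, h1⟩
        exact ⟨w, hw, (key w false).1 h1⟩
      · rintro ⟨w, hw, h1⟩
        exact ⟨w, hw, (key w false).2 h1⟩
    | false =>
      constructor
      · intro h1 w hw
        exact (key w true).1 (h1 w hw)
      · intro h1 w hw
        exact (key w true).2 (h1 w hw)

theorem sig (k : ℕ) (A : Oracle) :
    IsSig A k {s | ¬ Crel k A (idx (unpair s).1) (idx (unpair s).2)} := by
  refine ⟨VV k (!(bot true k)) A, Polynomial.X, isFP_VV _ _ _, fun s => ?_⟩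
  have hz : idx (unpair s).2 = 0 ↔ (unpair s).2 = [] := by
    constructor
    · intro h
      have h1 := str_idx (unpair s).2
      have h2 := str_idx []
      have h3 : idx ([] : List Bool) = 0 := rfl
      rw [h3] at h2
      rw [h, h2] at h1
      exact h1.symm
    · intro h
      rw [h]
      rfl
  rw [Set.mem_ofPred_eq, Polynomial.eval_X]
  by_cases h0 : (unpair s).2 = []
  · have h1 : Crel k A (idx (unpair s).1) (idx (unpair s).2) := Or.inl (hz.2 h0)
    refine ⟨fun h => absurd h1 h, fun h => ?_⟩
    exfalso
    apply quant_false s.length k true s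
    refine (quant_congr _ _ _ k 0 true s ?_).1 h
    intro u' hu'
    rw [Nat.zero_add] at hu'
    replace hu' : inn k u' = s := hu'
    have h2 : VV k (!(bot true k)) A u' = [false] := by
      unfold VV
      rw [hu', if_pos h0]
    rw [h2]
  · by_cases hok : okL s
    · have hq : Quant s.length (VV k (!(bot true k)) A) k true s ↔
          Quant s.length (fun u => Ver (k + 2) (!(bot true k)) A (G (0 + k) u)) k true s := by
        apply quant_congr _ _ _ k 0 true s
        intro u' hu'
        rw [Nat.zero_add] at hu'
        replace hu' : inn k u' = s := hu'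
        have h2 : VV k (!(bot true k)) A u' = Ver (k + 2) (!(bot true k)) A (G k u') := by
          unfold VV
          rw [hu', if_neg h0, if_pos hok]
        rw [h2, Nat.zero_add]
      rw [hq, quant_G]
      have hl1 := length_unpair s
      have hl2 := length_unpair (unpair s).1
      have hl3 := length_unpair (unpair (unpair s).1).2
      have hok' := hok
      obtain ⟨o1, o2, o3⟩ := hok
      have hdec : dec 2 (G 0 s) = ((unpair (unpair (unpair s).1).2).2,
          (unpair s).1 ++ (unpair (unpair s).2).1 ++ (unpair (unpair s).2).2) := by
        simp only [G, dec, unpair_pairBits]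
        rw [fit_eq o2, fit_eq o3]
      rw [quant_iff A (k + 2) s.length (!(bot true k)) k 2 true _ _ _ (by omega) hdec (by omega)
        (by rw [Bool.not_not])]
      unfold Crel
      simp only [str_idx, hz, h0, false_or, not_and, Bool.not_eq_true, Bool.not_true]
      constructor
      · intro h
        exact h o1 o2 o3
      · intro h _ _ _
        exact h
    · have h1 : ¬ Crel k A (idx (unpair s).1) (idx (unpair s).2) := by
        rintro (h | h)
        · exact h0 (hz.1 h)
        · simp only [str_idx] at h
          exact hok ⟨h.1, h.2.1, h.2.2.1⟩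
      refine ⟨fun _ => ?_, fun _ => h1⟩
      refine (quant_congr _ _ (fun _ => [true]) k 0 true s ?_).2 (quant_true _ _ _ _)
      intro u' hu'
      rw [Nat.zero_add] at hu'
      replace hu' : inn k u' = s := hu'
      have h2 : VV k (!(bot true k)) A u' = [true] := by
        unfold VV
        rw [hu', if_neg h0, if_neg hok]
      rw [h2]

end Pil

theorem isOpt_Crel (k : ℕ) (A : Oracle) : IsOpt A k (Crel k A) rho where
  zero x := Or.inl rfl
  le x y h := by
    rcases h with rfl | ⟨h, -⟩
    · exact Nat.zero_le _
    · have h1 := idx_lt (str y)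
      have h2 := le_idx (str x)
      have h3 : 2 ^ ((str y).length + 1) ≤ 2 ^ (str x).length := Nat.pow_le_pow_right (by norm_num) h
      rw [idx_str] at h1 h2
      omega
  poly := by
    have h1 : Poly (fun z : List Bool => (unpair z).1) := Poly.fst poly_unpair
    refine polyTime_of_poly_list (h1.congr fun s => ?_)
    unfold rho
    rw [str_idx, str_idx]
  pi := Pil.sig k A

end Pool.Agent.H585R2.CC
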