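import Pool.Agent.H585R2.CC.GDefs

/-! Task SIM: the simulation of a computation by a protocol. -/

set_option autoImplicit false

namespace Pool.Agent.H585R2.CC

open Finset H568R2 Pool.Agent.H676 Pool.Agent.H620R2.Gauge Pool.Agent.NPC Pool.Agent.H591R3.PHG

theorem sim_bd_mono {I : Type} (G : Gm I) {R R' : ℕ} (h : Bd G R) (hR : R ≤ R') : Bd G R' := by
  cases G with
  | out o => exact le_trans h hR
  | bit i f => obtain ⟨R1, h1, h2⟩ := h; exact ⟨R1, h1.trans hR, h2⟩
  | pre o f => obtain ⟨R1, h1, h2⟩ := h; exact ⟨R1, h1.trans hR, h2⟩

theorem sim_bp_mono {I : Type} (G : Gm I) : ∀ {q q' : ℕ}, Bp G q → q ≤ q' → Bp G q' := by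
  induction G with
  | out o => intro q q' _ _; trivial
  | bit i f ih => intro q q' h hq b; exact ih b (h b) hq
  | pre o f ih =>
    intro q q' h hq
    obtain ⟨q1, h1, h2⟩ := h
    exact ⟨q1, h1.trans hq, h2⟩

theorem sim_dt {X : Type} [Fintype X] [DecidableEq X] {c : ℕ} (r : X → ℕ) :
    ∀ (r0 : ℕ) (f : (X × Fin c → Bool) → Bool), DTr r0 f →
    ∀ (Gb : Bool → Gm (X × Fin c)) (R n : ℕ), (∀ b, Bd (Gb b) R) → (∀ b, Bp (Gb b) n) →
    ∃ G : Gm (X × Fin c), Bd G (R + r0) ∧ Bp G n ∧
      ∀ v z, play r v z G = play r v z (Gb (f z)) := by
  intro r0
  induction r0 with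
  | zero =>
    rintro f ⟨b, hb⟩ Gb R n hR hn
    exact ⟨Gb b, hR b, hn b, fun v z => by rw [hb z]⟩
  | succ r0 ih =>
    rintro f (⟨b, hb⟩ | ⟨i, hi⟩) Gb R n hR hn
    · exact ⟨Gb b, sim_bd_mono _ (hR b) (by omega), hn b, fun v z => by rw [hb z]⟩
    · choose G h1 h2 h3 using fun b => ih _ (hi b) Gb R n hR hn
      refine ⟨.bit i G, ⟨R + r0, by omega, h1⟩, h2, fun v z => ?_⟩
      show play r v z (G (z i)) = _
      rw [h3, Function.update_eq_self]

theorem sim_str_zero : str 0 = [] := by
  simp [str]

theorem sim {X : Type} [Fintype X] [DecidableEq X] {c : ℕ} (r : X → ℕ) (M : Comp) (x : ℕ)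
    (dc : ℕ → Option (Option (X × Fin c))) (cd : Option (X × Fin c) → ℕ)
    (hdc : dc 0 = some none) (hlen : ∀ o, (str (cd o)).length ≤ (str x).length)
    (pS : Polynomial ℕ) {r0 ℓ Mx La : ℕ}
    (hD : ∀ a q : List Bool, a.length ≤ La → M.D (pairBits (str x) a) = false :: q →
      q.length ≤ ℓ ∧ pS.eval q.length ≤ Mx)
    (F : ℕ → List Bool → (X × Fin c → Bool) → Bool)
    (hF : ∀ m ≤ Mx, ∀ y : List Bool, y.length ≤ ℓ → DTr r0 (F m y))
    (s : X × Fin c → Option Bool) :
    ∀ (n : ℕ) (a : List Bool), a.length + n * (2 * (str x).length + 2) ≤ La →
      ∃ G : Gm (X × Fin c), Bd G (n * (r0 + 1) + 1) ∧ Bp G n ∧ ∀ (z : X × Fin c → Bool) (y : ℕ),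
        M.run (fun q => F (pS.eval q.length) q z) (fun _ y => advT r dc cd (val s z) y) x n a =
          some y → ∀ o, dc y = some o → play r (val s z) z G = o := by
  intro n
  induction n with
  | zero =>
    intro a _
    refine ⟨.out none, ?_, trivial, ?_⟩
    · show 1 ≤ _
      omega
    · intro z y h
      simp [Comp.run] at h
  | succ n ih =>
    intro a ha
    have hmul : (n + 1) * (2 * (str x).length + 2) =
        n * (2 * (str x).length + 2) + (2 * (str x).length + 2) := by ring
    have hmul2 : (n + 1) * (r0 + 1) = n * (r0 + 1) + (r0 + 1) := by ring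
    have hout0 : (∀ (z : X × Fin c → Bool),
        M.run (fun q => F (pS.eval q.length) q z) (fun _ y => advT r dc cd (val s z) y) x (n + 1)
          a = some 0) →
      ∃ G : Gm (X × Fin c), Bd G ((n + 1) * (r0 + 1) + 1) ∧ Bp G (n + 1) ∧
        ∀ (z : X × Fin c → Bool) (y : ℕ),
        M.run (fun q => F (pS.eval q.length) q z) (fun _ y => advT r dc cd (val s z) y) x (n + 1)
          a = some y → ∀ o, dc y = some o → play r (val s z) z G = o := by
      intro hr
      refine ⟨.out none, ?_, trivial, ?_⟩
      · show 1 ≤ _
        omega
      · intro z y h o ho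
        rw [hr z, Option.some.injEq] at h
        subst h
        rw [hdc, Option.some.injEq] at ho
        exact ho
    rcases hq : M.D (pairBits (str x) a) with _ | ⟨b, q⟩
    · exact hout0 (fun z => by simp [Comp.run, hq])
    · cases b with
      | false =>
        obtain ⟨hq1, hq2⟩ := hD a q (by omega) hq
        choose Gb h1 h2 h3 using fun b : Bool => ih (a ++ [b]) (by
          rw [List.length_append, List.length_singleton]; omega)
        obtain ⟨G, g1, g2, g3⟩ := sim_dt r r0 _ (hF _ hq2 q hq1) Gb _ _ h1 h2
        refine ⟨G, sim_bd_mono _ g1 (by omega), sim_bp_mono _ g2 (by omega), ?_⟩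
        intro z y h o ho
        simp only [Comp.run, hq] at h
        rw [g3]
        exact h3 _ z y h o ho
      | true =>
        rcases q with _ | ⟨b', q⟩
        · exact hout0 (fun z => by simp [Comp.run, hq])
        · cases b' with
          | false =>
            cases hd : dc (idx q) with
            | none =>
              obtain ⟨G, g1, g2, g3⟩ := ih (a ++ false :: pairBits (str 0) []) (by
                rw [List.length_append, List.length_cons, sim_str_zero]
                simp [pairBits]
                omega)
              refine ⟨G, sim_bd_mono _ g1 (by omega), sim_bp_mono _ g2 (by omega), ?_⟩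
              intro z y h o ho
              simp only [Comp.run, hq, advT, hd] at h
              exact g3 z y h o ho
            | some o1 =>
              obtain ⟨G1, g1, g2, g3⟩ := ih (a ++ [true]) (by
                rw [List.length_append, List.length_singleton]; omega)
              choose G2 k1 k2 k3 using fun o' : Option (X × Fin c) =>
                ih (a ++ false :: pairBits (str (cd o')) []) (by
                  have := hlen o'
                  rw [List.length_append, List.length_cons, length_pairBits]
                  simp only [List.length_nil]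
                  omega)
              refine ⟨.pre o1 (fun an => match an with
                | none => G1
                | some o' => G2 o'), ⟨n * (r0 + 1) + 1, by omega, ?_⟩, ⟨n, le_rfl, ?_⟩, ?_⟩
              · rintro (_ | o')
                · exact g1
                · exact k1 o'
              · rintro (_ | o')
                · exact g2
                · exact k2 o'
              · intro z y h o ho
                simp only [Comp.run, hq, advT, hd] at h
                simp only [play]
                cases han : ans r (val s z) o1 with
                | none =>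
                  rw [han] at h
                  exact g3 z y h o ho
                | some o' =>
                  rw [han] at h
                  exact k3 o' z y h o ho
          | true =>
            refine ⟨.out ((dc (idx q)).getD none), ?_, trivial, ?_⟩
            · show 1 ≤ _
              omega
            · intro z y h o ho
              simp only [Comp.run, hq, Option.some.injEq] at h
              subst h
              show (dc (idx q)).getD none = o
              rw [ho]
              rfl

end Pool.Agent.H585R2.CC
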