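import Pool.Agent.H585R2.CC.GDefs
import Pool.Agent.H591R3.PHG.Main

/-!
# Task SIZ: sizes of the levels and the law
-/

set_option autoImplicit false

namespace Pool.Agent.H585R2.CC

open Finset H568R2 Pool.Agent.H676 Pool.Agent.H620R2.Gauge Pool.Agent.NPC Pool.Agent.H591R3.PHG

theorem sizes {n : ℕ} (hn : 5 ≤ n) : ∀ (k : ℕ) (law : Option Bool → ℝ), Inv n law →
    ∃ (as : List ℕ) (law' : Option Bool → ℝ), as.length = k ∧ (∀ a ∈ as, a ≤ 64 * n) ∧
      Inv n law' ∧
      ∀ (X : Type) [Fintype X] [DecidableEq X] (W : (X → Option Bool) → ℝ),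
        Ex law (fun s : Idx X (pw as) → Option Bool =>
          PW (1 / 2 ^ (4 * n)) (1 / 2 ^ (2 * n)) (8 * n * 2 ^ (4 * n)) W (pw as) s) =
        Ex law' W := by
  classical
  intro k
  induction k with
  | zero =>
    intro law hinv
    refine ⟨[], law, rfl, by simp, hinv, ?_⟩
    intro X _ _ W
    rfl
  | succ k ih =>
    intro law hinv
    have hn5 : (5 : ℝ) ≤ n := by exact_mod_cast hn
    obtain ⟨a, ha, h1, h2⟩ := exists_pow hn (B := 16 * n) hinv.lo hinv.hi (by linarith) le_rfl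
    have hc2 : (((2 ^ a : ℕ)) : ℝ) = 2 ^ a := by push_cast; rfl
    have hinv' := inv_step (c := 2 ^ a) hn hinv (by rw [hc2]; exact h1)
      (by rw [hc2]; linarith)
    obtain ⟨as, law', hlen, has, hi, hX⟩ := ih _ hinv'
    refine ⟨a :: as, law', by simp [hlen], ?_, hi, ?_⟩
    · intro a' ha'
      rcases List.mem_cons.1 ha' with rfl | h
      · exact ha
      · exact has a' h
    · intro X _ _ W
      rw [← hX X W]
      rw [← law_stage (G := Idx X (pw as)) (c := 2 ^ a) (smin := 8 * n * 2 ^ (4 * n))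
        (t := 1 / 2 ^ (4 * n)) (t' := 1 / 2 ^ (4 * n)) (ξ := 1 / 2 ^ (2 * n)) law]
      rfl

end Pool.Agent.H585R2.CC
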