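import Pool.Agent.H585R2.CC.Gen
import Pool.Agent.H585R2.CC.Num
import Pool.Agent.H585R2.CC.Cnt
import Pool.Agent.H585R2.CC.Siz
import Pool.Agent.H585R2.CC.Sim
import Pool.Agent.H585R2.CC.Leg
import Pool.Agent.H585R2.CC.Gam
import Pool.Agent.H585R2.CC.Pil
import Pool.Agent.H591R3.PHG.Cover

/-! The probability that a counterexample computation is successful on the hard instance. -/

set_option autoImplicit false

namespace Pool.Agent.H585R2.CC

open Finset H568R2 Pool.Agent.H676 Pool.Agent.H620R2.Gauge Pool.Agent.NPC Pool.Agent.H591R3.PHG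

/-- The computation `M` with the oracle answers `h` is successful on the instance when the values
of the children are `v`. -/
def Suc (M : Comp) (pS : Polynomial ℕ) (as : List ℕ) (a L w : ℕ) (h : ℕ → List Bool → Bool)
    (v : Fin (2 ^ L) × Fin (2 ^ a) → Bool) : Prop :=
  ∃ y, M.run (fun q => h (pS.eval q.length) q)
      (fun _ y => advT (rB L) (dcS as a L w) (cdS a L) v y) (idx (inst as a L w))
      (M.p.eval (inst as a L w).length) [] = some y ∧
    ∃ o, dcS as a L w y = some o ∧ Win (rB L) v o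

open Classical in
/-- the bound after the random projections -/
noncomputable def WW (a L : ℕ) (t : ℝ) (q R : ℕ) (s : Fin (2 ^ L) × Fin (2 ^ a) → Option Bool) : ℝ :=
  (if ∃ p, s p = some true then (1 : ℝ) else 0) + 2 * t * R +
    Ex (ber t) (fun z : Fin (2 ^ L) × Fin (2 ^ a) → Bool =>
      if nfeas (val s z) ≤ q then (1 : ℝ) else 0)

theorem WW_nonneg (a L : ℕ) {t : ℝ} (ht0 : 0 ≤ t) (ht1 : t ≤ 1) (q R : ℕ)
    (s : Fin (2 ^ L) × Fin (2 ^ a) → Option Bool) : 0 ≤ WW a L t q R s := by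
  classical
  unfold WW
  have h1 : 0 ≤ Ex (ber t) (fun z : Fin (2 ^ L) × Fin (2 ^ a) → Bool =>
      if nfeas (val s z) ≤ q then (1 : ℝ) else 0) :=
    Ex_nonneg (ber_nonneg_m ht0 ht1) fun z => by split_ifs <;> norm_num
  have h2 : (0 : ℝ) ≤ 2 * t * R := by positivity
  split_ifs <;> linarith

open Classical in
theorem fin_bound (M : Comp) (pS : Polynomial ℕ) (as : List ℕ) (a L w : ℕ) (hL : 1 ≤ L) {t : ℝ}
    (ht0 : 0 ≤ t) (ht : t ≤ 1 / 2) {r0 ℓ Mx La : ℕ}
    (hD : ∀ b q : List Bool, b.length ≤ La → M.D (pairBits (inst as a L w) b) = false :: q →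
      q.length ≤ ℓ ∧ pS.eval q.length ≤ Mx)
    (hLa : M.p.eval (inst as a L w).length * (2 * (inst as a L w).length + 2) ≤ La)
    (s : Fin (2 ^ L) × Fin (2 ^ a) → Option Bool)
    (F : ℕ → List Bool → (Fin (2 ^ L) × Fin (2 ^ a) → Bool) → Bool)
    (hF : ∀ m ≤ Mx, ∀ y : List Bool, y.length ≤ ℓ → DTr r0 (F m y)) :
    Ex (ber t) (fun z : Fin (2 ^ L) × Fin (2 ^ a) → Bool =>
      if Suc M pS as a L w (fun m y => F m y z) (val s z) then (1 : ℝ) else 0) ≤
      WW a L t (M.p.eval (inst as a L w).length)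
        (M.p.eval (inst as a L w).length * (r0 + 1) + 1) s := by
  set q : ℕ := M.p.eval (inst as a L w).length with hq
  have ht1 : t ≤ 1 := by linarith
  have h0 : 0 ≤ Ex (ber t) (fun z : Fin (2 ^ L) × Fin (2 ^ a) → Bool =>
      if nfeas (val s z) ≤ q then (1 : ℝ) else 0) :=
    Ex_nonneg (ber_nonneg_m ht0 ht1) fun z => by split_ifs <;> norm_num
  have h2 : (0 : ℝ) ≤ 2 * t * ((q * (r0 + 1) + 1 : ℕ) : ℝ) := by positivity
  unfold WW
  by_cases hk : ∃ p, s p = some true
  · rw [if_pos hk]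
    have h1 := Ex_le_one (X := Fin (2 ^ L) × Fin (2 ^ a)) (t := t) ht0 ht1
      (Φ := fun z => if Suc M pS as a L w (fun m y => F m y z) (val s z) then (1 : ℝ) else 0)
      (fun z => by split_ifs <;> norm_num)
    linarith
  · rw [if_neg hk]
    have hs : ∀ p, s p ≠ some true := fun p hp => hk ⟨p, hp⟩
    obtain ⟨G, hB, hP, hG⟩ := sim (rB L) M (idx (inst as a L w)) (dcS as a L w) (cdS a L)
      (dcS_zero as a L w) (fun o => by rw [str_idx]; exact (cdS_len as a L w o).le) pS
      (r0 := r0) (ℓ := ℓ) (Mx := Mx) (La := La) (by rw [str_idx]; exact hD) F hF s q []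
      (by rw [str_idx]; simpa using hLa)
    have h3 := game_bound (rB L) (rB_inj L) (rB_pos hL) ht0 ht s hs G hB hP
    refine (Ex_mono (ber_nonneg_m ht0 ht1) fun z => ?_).trans
      (h3.trans (le_of_eq (by ring)))
    by_cases hS : Suc M pS as a L w (fun m y => F m y z) (val s z)
    · rw [if_pos hS]
      obtain ⟨y, hy, o, ho, hw⟩ := hS
      have h4 := hG z y hy o ho
      rw [if_pos (by rw [h4]; exact hw)]
    · rw [if_neg hS]
      split_ifs <;> norm_num

/-- the position of a leaf -/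
def ps (as : List ℕ) (a L w N : ℕ)
    (hN : ∀ g : Idx (Fin (2 ^ L) × Fin (2 ^ a)) (w :: pw as),
      idx (addr (chs as a L w) as g.1 ++ List.replicate g.2.val true) < N)
    (g : Idx (Fin (2 ^ L) × Fin (2 ^ a)) (w :: pw as)) : Fin N :=
  ⟨idx (addr (chs as a L w) as g.1 ++ List.replicate g.2.val true), hN g⟩

theorem ps_inj (as : List ℕ) (a L w N : ℕ)
    (hN : ∀ g : Idx (Fin (2 ^ L) × Fin (2 ^ a)) (w :: pw as),
      idx (addr (chs as a L w) as g.1 ++ List.replicate g.2.val true) < N) :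
    Function.Injective (ps as a L w N hN) := by
  intro g g' h
  have h1 : idx (addr (chs as a L w) as g.1 ++ List.replicate g.2.val true) =
      idx (addr (chs as a L w) as g'.1 ++ List.replicate g'.2.val true) := by
    simpa [ps] using h
  have h2 : addr (chs as a L w) as g.1 ++ List.replicate g.2.val true =
      addr (chs as a L w) as g'.1 ++ List.replicate g'.2.val true := by
    rw [← str_idx (addr (chs as a L w) as g.1 ++ List.replicate g.2.val true), h1, str_idx]
  exact leaf_inj (chs as a L w) (chs_inj as a L w) _ (fun j => chs_len as a L w j) as w h2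

/-- The event: the computation is successful on the instance. -/
def EvC (MV : Alg) (M : Comp) (pS : Polynomial ℕ) (k : ℕ) (as : List ℕ) (a L w N : ℕ)
    (hN : ∀ g : Idx (Fin (2 ^ L) × Fin (2 ^ a)) (w :: pw as),
      idx (addr (chs as a L w) as g.1 ++ List.replicate g.2.val true) < N)
    (A : Fin N → Bool) : Prop :=
  Suc M pS as a L w (fun m y => QF m (leaf MV N) k true y A)
    (Tr (w :: pw as) (fun g => A (ps as a L w N hN g)))

open Classical in
theorem evC_bound (MV : Alg) (M : Comp) (pS : Polynomial ℕ) {k n N u a L ℓ Mx La : ℕ}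
    (hn : 5 ≤ n) (hu : 8 * u ≤ n) {as : List ℕ} (hk : as.length = k) (hL : 1 ≤ L)
    (hD : ∀ b q : List Bool, b.length ≤ La → M.D (pairBits (inst as a L (8 * n)) b) = false :: q →
      q.length ≤ ℓ ∧ pS.eval q.length ≤ Mx)
    (hLa : M.p.eval (inst as a L (8 * n)).length * (2 * (inst as a L (8 * n)).length + 2) ≤ La)
    (hMV : ∀ y : List Bool, y.length ≤ ℓ + k * (2 * Mx + 1) → MV.p.eval y.length ≤ 2 ^ (2 * u))
    (hN : ∀ g : Idx (Fin (2 ^ L) × Fin (2 ^ a)) (8 * n :: pw as),
      idx (addr (chs as a L (8 * n)) as g.1 ++ List.replicate g.2.val true) < N) :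
    Ex unif (fun A : Fin N → Bool => if EvC MV M pS k as a L (8 * n) N hN A then (1 : ℝ) else 0) ≤
      k * ((Mx + 1) * (2 ^ (ℓ + k * (2 * Mx + 1) + 2) * (1 / 2) ^ (2 ^ (2 * u) + 1))) +
      Ex (nxt (1 / 2) (1 / 2 ^ (4 * n)) 0 (8 * n) (8 * n) law0)
        (PW (X := Fin (2 ^ L) × Fin (2 ^ a)) (1 / 2 ^ (4 * n)) (1 / 2 ^ (2 * n))
          (8 * n * 2 ^ (4 * n)) (WW a L (1 / 2 ^ (4 * n)) (M.p.eval (inst as a L (8 * n)).length)
        (M.p.eval (inst as a L (8 * n)).length * (2 ^ (2 * u) + 1) + 1)) (pw as)) := by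
  have hinj := ps_inj as a L (8 * n) N hN
  rw [Ex_overwrite (ps as a L (8 * n) N hN) hinj]
  have ht0 : (0 : ℝ) ≤ 1 / 2 ^ (4 * n) := by positivity
  have ht2 : (1 : ℝ) / 2 ^ (4 * n) ≤ 1 / 2 := by
    apply one_div_le_one_div_of_le (by norm_num)
    calc (2 : ℝ) = 2 ^ 1 := by norm_num
      _ ≤ 2 ^ (4 * n) := pow_le_pow_right₀ (by norm_num) (by omega)
  refine (Ex_mono unif_nonneg fun A => ?_).trans (le_of_eq (Ex_const unif_sum _))
  set F : ℕ → List Bool → (Idx (Fin (2 ^ L) × Fin (2 ^ a)) (8 * n :: pw as) → Bool) → Bool :=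
    fun _ y z => leaf MV N y
      (fun i => if h : ∃ j, ps as a L (8 * n) N hN j = i then z h.choose else A i) with hF
  have hFd : ∀ m ≤ Mx, ∀ y : List Bool, y.length ≤ ℓ + k * (2 * m + 1) →
      DTr (2 ^ (2 * u)) (F m y) := by
    intro m hm y hy
    have h1 : DTr (MV.p.eval y.length) (leaf MV N y) := dtr_out MV N y
    have h3 : k * (2 * m + 1) ≤ k * (2 * Mx + 1) := Nat.mul_le_mul_left _ (by omega)
    exact DTr_overwrite (ps as a L (8 * n) N hN) A (h1.mono (hMV y (by omega)))
  have hcs : (pw as).length = k := by rw [pw, List.length_map]; exact hk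
  have h1 := gen_leaf (X := Fin (2 ^ L) × Fin (2 ^ a)) (n := n) (u := u) (ℓ := ℓ) (Mx := Mx) hn hu
    (fun h v => if Suc M pS as a L (8 * n) h v then (1 : ℝ) else 0)
    (fun h v => by split_ifs <;> norm_num)
    (WW a L (1 / 2 ^ (4 * n)) (M.p.eval (inst as a L (8 * n)).length)
        (M.p.eval (inst as a L (8 * n)).length * (2 ^ (2 * u) + 1) + 1))
    (fun s => WW_nonneg a L ht0 (by linarith) _ _ s)
    (fun s F' hF' => fin_bound M pS as a L (8 * n) hL ht0 ht2 hD hLa s F' hF')
    k (pw as) hcs F hFd true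
  refine le_trans (le_of_eq ?_) h1
  congr 1
  funext z
  have e1 : (fun g => (fun i => if h : ∃ j, ps as a L (8 * n) N hN j = i then z h.choose else A i)
      (ps as a L (8 * n) N hN g)) = z := by
    funext g
    have hex : ∃ j, ps as a L (8 * n) N hN j = ps as a L (8 * n) N hN g := ⟨g, rfl⟩
    show (if h : ∃ j, ps as a L (8 * n) N hN j = ps as a L (8 * n) N hN g then z h.choose else
      A (ps as a L (8 * n) N hN g)) = z g
    rw [dif_pos hex]
    exact congrArg z (hinj hex.choose_spec)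
  have e2 : EvC MV M pS k as a L (8 * n) N hN
      (fun i => if h : ∃ j, ps as a L (8 * n) N hN j = i then z h.choose else A i) ↔
      Suc M pS as a L (8 * n) (fun m y => QF m (F m) k true y z) (Tr (8 * n :: pw as) z) := by
    unfold EvC
    rw [e1]
    have e3 : (fun (m : ℕ) (y : List Bool) => QF m (leaf MV N) k true y
        (fun i => if h : ∃ j, ps as a L (8 * n) N hN j = i then z h.choose else A i)) =
        fun m y => QF m (F m) k true y z := by
      funext m y
      rw [hF, ← QF_comp m (leaf MV N) (fun z i =>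
          if h : ∃ j, ps as a L (8 * n) N hN j = i then z h.choose else A i)]
    rw [e3]
  by_cases hz : Suc M pS as a L (8 * n) (fun m y => QF m (F m) k true y z)
      (Tr (8 * n :: pw as) z)
  · rw [if_pos hz, if_pos (e2.2 hz)]
  · rw [if_neg hz, if_neg (fun h => hz (e2.1 h))]

end Pool.Agent.H585R2.CC
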