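import Pool.Agent.H591R3.PHG.Defs

/-!
# Counterexample computations relative to an oracle

Numbers are coded by bit strings through the bijection `str` (inverse `idx`).
-/

set_option autoImplicit false

namespace Pool.Agent.H585R2.CC

open Pool.Agent.NPC Pool.Agent.H620R2.Gauge Pool.Agent.H591R3.PHG

/-- `(C, ρ)` is an optimization problem, and `C` is in `Π_i` relative to the oracle `A`. -/
structure IsOpt (A : Oracle) (i : ℕ) (C : ℕ → ℕ → Prop) (ρ : ℕ → ℕ) : Prop where
  /-- `0` is always a feasible solution -/
  zero : ∀ x, C x 0
  /-- feasible solutions are at most `x` -/
  le : ∀ x y, C x y → y ≤ x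
  /-- the objective function is polynomial-time computable (without the oracle) -/
  poly : PolyTime (fun s => str (ρ (idx s)))
  /-- the complement of `C` is in `Σ_i` relative to `A` -/
  pi : IsSig A i {s | ¬ C (idx (unpair s).1) (idx (unpair s).2)}

/-- The relation `B(x,y,z)`: `y` is feasible, and `z` is not a better feasible solution. -/
def BB (C : ℕ → ℕ → Prop) (ρ : ℕ → ℕ) (x y z : ℕ) : Prop := C x y ∧ (ρ y < ρ z → ¬ C x z)

/-- `y` is an optimal feasible solution of the instance `x`. -/
def Optimal (C : ℕ → ℕ → Prop) (ρ : ℕ → ℕ) (x y : ℕ) : Prop := C x y ∧ ∀ z, C x z → ρ z ≤ ρ y

/-- A strategy of the adversary: the answer to the question whether `y` is optimal, asked after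
the given history; `none` means yes, and `some z` means no, with the counterexample `z`. -/
abbrev Adv : Type := List Bool → ℕ → Option ℕ

/-- The adversary answers correctly on the instance `x`: the answer is yes exactly if `y` is
optimal, and the counterexamples `z` satisfy `z ≤ x` and `¬ B(x,y,z)`. -/
def Legal (C : ℕ → ℕ → Prop) (ρ : ℕ → ℕ) (x : ℕ) (T : Adv) : Prop :=
  ∀ (a : List Bool) (y : ℕ), (T a y = none → Optimal C ρ x y) ∧
    ∀ z, T a y = some z → ¬ Optimal C ρ x y ∧ z ≤ x ∧ ¬ BB C ρ x y z

/-- A counterexample computation. On input `x`, and after the answers `a` received so far,
`D ⟨x, a⟩` tells what comes next: `false :: q` is the question whether `q` is in the oracle set `S`;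
`true :: false :: y` presents the number coded by `y` to the adversary; `true :: true :: y` stops
with output the number coded by `y` (and in the other cases it stops with output `0`). The
function `D` is polynomial-time computable and the number of rounds is bounded by the polynomial
`p` in the length of the input. -/
structure Comp : Type where
  /-- the next action, as a function of the input and of the answers received so far -/
  D : List Bool → List Bool
  /-- it is computable in polynomial time -/
  poly : PolyTime D
  /-- the bound for the number of rounds -/
  p : Polynomial ℕ

/-- The output of the computation with oracle `S` and adversary `T` on the instance `x`, within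
`n` further rounds, when the answers received so far are `a`; `none` if it does not stop. The
answer of the oracle is one bit, the answer yes of the adversary is the bit `1`, and the answer
no with the counterexample `z` is the bit `0`, followed by a code of `z`. -/
def Comp.run (M : Comp) (S : List Bool → Bool) (T : Adv) (x : ℕ) : ℕ → List Bool → Option ℕ
  | 0, _ => none
  | n + 1, a =>
    match M.D (pairBits (str x) a) with
    | false :: q => M.run S T x n (a ++ [S q])
    | true :: false :: y =>
      match T a (idx y) with
      | none => M.run S T x n (a ++ [true])
      | some z => M.run S T x n (a ++ false :: pairBits (str z) [])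
    | true :: true :: y => some (idx y)
    | _ => some 0

/-- The output on the instance `x`, if it stops in time. -/
noncomputable def Comp.out (M : Comp) (S : List Bool → Bool) (T : Adv) (x : ℕ) : Option ℕ :=
  M.run S T x (M.p.eval (str x).length) []

/-- The computation `M` with oracle `S` fails on the instance `x` of `(C, ρ)`: against some
adversary who answers correctly it does not output an optimal solution. -/
def Fails (M : Comp) (S : List Bool → Bool) (C : ℕ → ℕ → Prop) (ρ : ℕ → ℕ) (x : ℕ) : Prop :=
  ∃ T : Adv, Legal C ρ x T ∧ ∀ y, M.out S T x = some y → ¬ Optimal C ρ x y

end Pool.Agent.H585R2.CC
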