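import Pool.Agent.H585R2.CC.Asm

/-! Almost no oracle is easy for a given counterexample computation. -/

set_option autoImplicit false

namespace Pool.Agent.H585R2.CC

open Finset H568R2 Pool.Agent.H676 Pool.Agent.H620R2.Gauge Pool.Agent.NPC Pool.Agent.H591R3.PHG

/-- the parameters: number of quantifiers, algorithm for the matrix, bound for the quantifiers,
counterexample computation, bound for the exceptional instances -/
structure Prm : Type where
  k : ℕ
  MV : Alg
  pS : Polynomial ℕ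
  M : Comp
  m0 : ℕ

theorem countable_polynomial : Countable (Polynomial ℕ) := by
  have : Function.Injective (fun p : Polynomial ℕ => (p.toFinsupp.coeff : ℕ →₀ ℕ)) := by
    intro p q h
    ext n
    exact DFunLike.congr_fun h n
  exact this.countable

instance Comp.countable : Countable Comp := by
  have h1 : Countable {D : List Bool → List Bool | PolyTime D} := countable_polyTime.to_subtype
  have h2 : Countable (Polynomial ℕ) := countable_polynomial
  let F : Comp → {D : List Bool → List Bool | PolyTime D} × Polynomial ℕ :=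
    fun M => (⟨M.D, M.poly⟩, M.p)
  have hF : Function.Injective F := by
    intro M N h
    obtain ⟨D, hD, p⟩ := M
    obtain ⟨D', hD', p'⟩ := N
    simp only [F, Prod.mk.injEq, Subtype.mk.injEq] at h
    obtain ⟨rfl, rfl⟩ := h
    rfl
  exact hF.countable

instance Prm.countable : Countable Prm := by
  have h2 : Countable (Polynomial ℕ) := countable_polynomial
  let F : Prm → ℕ × Alg × Polynomial ℕ × Comp × ℕ := fun θ => (θ.k, θ.MV, θ.pS, θ.M, θ.m0)
  have hF : Function.Injective F := by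
    rintro ⟨k, MV, pS, M, m⟩ ⟨k', MV', pS', M', m'⟩ h
    simp only [F, Prod.mk.injEq] at h
    obtain ⟨rfl, rfl, rfl, rfl, rfl⟩ := h
    rfl
  exact hF.countable

/-- the oracles for which the computation is correct on all large instances -/
def EasyC (θ : Prm) : Set Oracle :=
  {A | ∃ (V : List Bool → List Bool) (S : List Bool → Bool),
    (∀ x, θ.MV.out A x = some (V x)) ∧
    (∀ q, S q = true ↔ Quant (θ.pS.eval q.length) V θ.k true q) ∧
    ∀ x, θ.m0 ≤ x → ¬ Fails θ.M S (Crel θ.k A) rho x}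

theorem evC_of_easy (θ : Prm) {qb : Polynomial ℕ}
    (hqb : ∀ (A : Oracle) (x : List Bool),
    ∃ Q : Finset (List Bool), Q.card ≤ θ.MV.p.eval x.length ∧
      (∀ q ∈ Q, q.length ≤ qb.eval x.length) ∧
      ∀ A' : Oracle, (∀ q ∈ Q, A' q = A q) → θ.MV.out A' x = θ.MV.out A x)
    {A : Oracle} (hA : A ∈ EasyC θ) {as : List ℕ} {a L w N ℓ Mx La : ℕ} (hk : as.length = θ.k)
    (hL : 1 ≤ L)
    (hD : ∀ b q : List Bool, b.length ≤ La → θ.M.D (pairBits (inst as a L w) b) = false :: q →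
      q.length ≤ ℓ ∧ θ.pS.eval q.length ≤ Mx)
    (hLa : θ.M.p.eval (inst as a L w).length * (2 * (inst as a L w).length + 2) ≤ La)
    (hN : ∀ g : Idx (Fin (2 ^ L) × Fin (2 ^ a)) (w :: pw as),
      idx (addr (chs as a L w) as g.1 ++ List.replicate g.2.val true) < N)
    (hN2 : 2 ^ (qb.eval (ℓ + θ.k * (2 * Mx + 1)) + 1) ≤ N)
    (hMx : θ.pS.eval ℓ ≤ Mx) (hm0 : θ.m0 ≤ idx (inst as a L w)) :
    EvC θ.MV θ.M θ.pS θ.k as a L w N hN (pre N A) := by
  obtain ⟨V, S, hV, hS, hF⟩ := hA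
  set s : List Bool := inst as a L w with hs
  set T : Adv := fun _ y => advT (rB L) (dcS as a L w) (cdS a L) (vv as a L w A) y with hT
  have hleg : Legal (Crel θ.k A) rho (idx s) T := legal_inst A θ.k as hk a L w hL
  have h1 := hF (idx s) hm0
  have h2 : ∃ y, θ.M.out S T (idx s) = some y ∧ Optimal (Crel θ.k A) rho (idx s) y := by
    by_contra hcon
    apply h1
    refine ⟨T, hleg, fun y hy hopt => hcon ⟨y, hy, hopt⟩⟩
  obtain ⟨y, hy, hopt⟩ := h2
  have hVleaf : ∀ y : List Bool, y.length ≤ ℓ + θ.k * (2 * Mx + 1) →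
      (V y = [true] ↔ leaf θ.MV N y (pre N A) = true) := by
    intro y hy
    obtain ⟨Q, _, hQl, hQA⟩ := hqb A y
    have h1 : θ.MV.out (orc N (pre N A)) y = θ.MV.out A y := by
      apply hQA
      intro q hq
      apply orc_pre
      have h2 := idx_lt q
      have h3 : q.length ≤ qb.eval (ℓ + θ.k * (2 * Mx + 1)) := (hQl q hq).trans (eval_mono _ hy)
      have h4 : 2 ^ (q.length + 1) ≤ 2 ^ (qb.eval (ℓ + θ.k * (2 * Mx + 1)) + 1) :=
        Nat.pow_le_pow_right (by norm_num) (by omega)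
      omega
    unfold leaf
    rw [h1, hV y, decide_eq_true_eq, Option.some.injEq]
  have hv : Tr (w :: pw as) (fun g => pre N A (ps as a L w N hN g)) = vv as a L w A := by
    unfold vv
    congr 1
    funext g
    show A (str (idx (addr (chs as a L w) as g.1 ++ List.replicate g.2.val true))) =
      A (addr (chs as a L w) as g.1 ++ List.replicate g.2.val true)
    rw [str_idx]
  unfold EvC Suc
  rw [hv]
  refine ⟨y, ?_, (optimal_inst A θ.k as hk a L w hL y).1 hopt⟩
  unfold Comp.out at hy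
  rw [str_idx] at hy
  rw [← hy]
  symm
  apply run_congr θ.M (idx s) (T := T) (ℓ := ℓ) (La := La)
  · intro b y z hz
    rw [str_idx]
    simp only [hT, advT] at hz
    have h0 : (str 0).length ≤ s.length := by
      have : str 0 = [] := by
        have := str_idx []
        simpa [idx] using this
      rw [this]
      simp
    split at hz
    · rw [Option.some.injEq] at hz
      rw [← hz]
      exact h0
    · rw [Option.map_eq_some_iff] at hz
      obtain ⟨o, _, ho⟩ := hz
      rw [← ho]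
      exact (cdS_len as a L w o).le
  · intro b q hb hq
    rw [str_idx] at hq
    exact (hD b q hb hq).1
  · intro q hq
    have hm : θ.pS.eval q.length ≤ Mx := (eval_mono _ hq).trans hMx
    have h3 := quant_iff (m := θ.pS.eval q.length) (ℓ + θ.k * (2 * Mx + 1)) hVleaf θ.k true q (by
      have : θ.k * (2 * θ.pS.eval q.length + 1) ≤ θ.k * (2 * Mx + 1) :=
        Nat.mul_le_mul_left _ (by omega)
      omega)
    rw [Bool.eq_iff_iff, hS q, h3]
  · rw [str_idx]
    simpa using hLa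

/-- the bound for the length of the instance -/
noncomputable def lenP (k : ℕ) : Polynomial ℕ :=
  Polynomial.C (128 * k + 146) * Polynomial.X + Polynomial.C (k + 25)

theorem eval_lenP (k n : ℕ) : (lenP k).eval n = (128 * k + 146) * n + (k + 25) := by
  simp [lenP]

theorem inst_len_le {as : List ℕ} {a L n k : ℕ} (hk : as.length = k) (has : ∀ b ∈ as, b ≤ 64 * n)
    (ha : a ≤ 64 * n) (hL : L ≤ n + 11) :
    (inst as a L (8 * n)).length ≤ (lenP k).eval n := by
  rw [inst_len, eval_lenP]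
  have h1 := sum_le n as has
  rw [hk] at h1
  rw [hk]
  have h2 : (128 * k + 146) * n = 2 * (k * (64 * n)) + 146 * n := by ring
  omega

/-- the bound for the length of the questions -/
noncomputable def ellP (θ : Prm) (bD : Polynomial ℕ) : Polynomial ℕ :=
  bD.comp (2 * lenP θ.k + 1 + (θ.M.p.comp (lenP θ.k)) * (2 * lenP θ.k + 2))

/-- the bound for the length of all strings -/
noncomputable def totP (θ : Prm) (bD : Polynomial ℕ) : Polynomial ℕ :=
  ellP θ bD + Polynomial.C θ.k * (2 * θ.pS.comp (ellP θ bD) + 1) + 2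

theorem eval_totP (θ : Prm) (bD : Polynomial ℕ) (n : ℕ) : (totP θ bD).eval n =
    (ellP θ bD).eval n + θ.k * (2 * θ.pS.eval ((ellP θ bD).eval n) + 1) + 2 := by
  simp [totP, Polynomial.eval_comp]

theorem eval_ellP (θ : Prm) (bD : Polynomial ℕ) (n : ℕ) : (ellP θ bD).eval n =
    bD.eval (2 * (lenP θ.k).eval n + 1 + θ.M.p.eval ((lenP θ.k).eval n) *
      (2 * (lenP θ.k).eval n + 2)) := by
  simp [ellP, Polynomial.eval_comp]

open Classical in
/-- the final average -/
theorem ex_WW {n L a q R : ℕ} {law : Option Bool → ℝ} (hinv : Inv n law)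
    (h1 : 1 / 2 ≤ (2 : ℝ) ^ a * (law none / 2 ^ (4 * n) + law (some true)))
    (h2 : (2 : ℝ) ^ a * (law none / 2 ^ (4 * n) + law (some true)) < 1) :
    Ex law (WW a L (1 / 2 ^ (4 * n)) q R) ≤
      2 ^ L * (2 * (1 / 2 ^ (2 * n))) + 2 * (1 / 2 ^ (4 * n)) * R + 2 ^ q * (9 / 10) ^ (2 ^ L) := by
  have ht0 : (0 : ℝ) ≤ 1 / 2 ^ (4 * n) := by positivity
  have ht1 : (1 : ℝ) / 2 ^ (4 * n) ≤ 1 := by
    rw [div_le_one (by positivity)]
    exact one_le_pow₀ (by norm_num)
  have e1 : Ex law (WW a L (1 / 2 ^ (4 * n)) q R) =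
      Ex law (fun s : Fin (2 ^ L) × Fin (2 ^ a) → Option Bool =>
        if ∃ p, s p = some true then (1 : ℝ) else 0) +
      Ex law (fun _ : Fin (2 ^ L) × Fin (2 ^ a) → Option Bool => 2 * (1 / 2 ^ (4 * n)) * (R : ℝ)) +
      Ex law (fun s : Fin (2 ^ L) × Fin (2 ^ a) → Option Bool =>
        Ex (ber (1 / 2 ^ (4 * n))) (fun z : Fin (2 ^ L) × Fin (2 ^ a) → Bool =>
        if nfeas (val s z) ≤ q then (1 : ℝ) else 0)) := by
    rw [← Ex_add, ← Ex_add]
    rfl
  rw [e1, Ex_const hinv.sum]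
  have h3 := killed_bound (I := Fin (2 ^ L) × Fin (2 ^ a)) hinv.nonneg hinv.sum
  have h4 := nfeas_bound (X := Fin (2 ^ L)) (c := 2 ^ a) (q := q) ht0 ht1 hinv.nonneg hinv.sum (by
    have : ((2 ^ a : ℕ) : ℝ) * (1 / 2 ^ (4 * n) * law none + law (some true)) =
      (2 : ℝ) ^ a * (law none / 2 ^ (4 * n) + law (some true)) := by push_cast; ring
    rw [this]; exact h1)
  rw [Fintype.card_fin] at h4
  have h5 : ((Fintype.card (Fin (2 ^ L) × Fin (2 ^ a)) : ℕ) : ℝ) * law (some true) ≤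
      2 ^ L * (2 * (1 / 2 ^ (2 * n))) := by
    rw [Fintype.card_prod, Fintype.card_fin, Fintype.card_fin]
    push_cast
    have h6 := hinv.rare
    have h7 : (2 : ℝ) ^ a * law (some true) ≤ 2 * (1 / 2 ^ (2 * n)) := by
      calc (2 : ℝ) ^ a * law (some true) ≤ 2 ^ a * (2 * (1 / 2 ^ (2 * n)) *
            (law none / 2 ^ (4 * n) + law (some true))) :=
            mul_le_mul_of_nonneg_left h6 (by positivity)
        _ = 2 * (1 / 2 ^ (2 * n)) * (2 ^ a * (law none / 2 ^ (4 * n) + law (some true))) := by ring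
        _ ≤ 2 * (1 / 2 ^ (2 * n)) * 1 := mul_le_mul_of_nonneg_left h2.le (by positivity)
        _ = 2 * (1 / 2 ^ (2 * n)) := by ring
    rw [mul_assoc]
    exact mul_le_mul_of_nonneg_left h7 (by positivity)
  linarith

/-- the event has small probability -/
theorem exists_event (θ : Prm) {δ : ℝ} (hδ : 0 < δ) : ∃ (N : ℕ) (E : (Fin N → Bool) → Prop),
    (∀ A ∈ EasyC θ, E (pre N A)) ∧
    ∀ (_ : DecidablePred E), Ex unif (fun A : Fin N → Bool => if E A then (1 : ℝ) else 0) ≤ δ := by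
  classical
  obtain ⟨bD, hbD⟩ := θ.M.next_length
  obtain ⟨qb, hqb⟩ := Alg.out_local θ.MV
  set BP : Polynomial ℕ := θ.M.p.comp (lenP θ.k) + totP θ bD + θ.pS.comp (ellP θ bD) + 1 +
    θ.MV.p.comp (totP θ bD) with hBP
  obtain ⟨u, ⟨hu1, hu2⟩, hu3, hu4⟩ := (((poly_growth BP).and (half_small θ.k hδ)).and
    ((Filter.eventually_ge_atTop 2).and (Filter.eventually_ge_atTop θ.m0))).exists
  set n : ℕ := 8 * u with hn
  set L : ℕ := u + 11 with hL
  have hn5 : 5 ≤ n := by omega
  obtain ⟨as, law, hk, has, hinv, hlaw⟩ := sizes hn5 θ.k _ (inv_start hn5)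
  obtain ⟨a, ha, ha1, ha2⟩ := exists_pow hn5 (B := 1 / 2) hinv.lo hinv.hi le_rfl (by
      have : (5 : ℝ) ≤ n := by exact_mod_cast hn5
      linarith)
  set s : List Bool := inst as a L (8 * n) with hs
  have hsl : s.length ≤ (lenP θ.k).eval n := inst_len_le hk has ha (by omega)
  set ℓ : ℕ := (ellP θ bD).eval n with hℓ
  set Mx : ℕ := θ.pS.eval ℓ with hMx
  set La : ℕ := θ.M.p.eval ((lenP θ.k).eval n) * (2 * (lenP θ.k).eval n + 2) with hLa
  set q : ℕ := θ.M.p.eval s.length with hq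
  have hBPe : BP.eval n = θ.M.p.eval ((lenP θ.k).eval n) + (totP θ bD).eval n + Mx + 1 +
      θ.MV.p.eval ((totP θ bD).eval n) := by
    simp [hBP, Polynomial.eval_comp, hMx, hℓ]
  rw [hBPe] at hu1
  have htot : (totP θ bD).eval n = ℓ + θ.k * (2 * Mx + 1) + 2 := eval_totP θ bD n
  have hq1 : q ≤ θ.M.p.eval ((lenP θ.k).eval n) := eval_mono _ hsl
  have hD : ∀ b q : List Bool, b.length ≤ La → θ.M.D (pairBits s b) = false :: q →
      q.length ≤ ℓ ∧ θ.pS.eval q.length ≤ Mx := by
    intro b q' hb hq'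
    have h1 := hbD (pairBits s b)
    rw [hq', List.length_cons, length_pairBits] at h1
    have h2 : bD.eval (2 * s.length + 1 + b.length) ≤ ℓ := by
      rw [hℓ, eval_ellP]
      apply eval_mono
      omega
    have h3 : q'.length ≤ ℓ := by omega
    exact ⟨h3, eval_mono _ h3⟩
  have hLa' : θ.M.p.eval s.length * (2 * s.length + 2) ≤ La :=
    Nat.mul_le_mul hq1 (by omega)
  have hMV : ∀ y : List Bool, y.length ≤ ℓ + θ.k * (2 * Mx + 1) →
      θ.MV.p.eval y.length ≤ 2 ^ (2 * u) := by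
    intro y hy
    have h1 : θ.MV.p.eval y.length ≤ θ.MV.p.eval ((totP θ bD).eval n) :=
      eval_mono _ (by omega)
    have h2 : 2 ^ u ≤ 2 ^ (2 * u) := Nat.pow_le_pow_right (by norm_num) (by omega)
    omega
  set N : ℕ := 2 ^ (qb.eval (ℓ + θ.k * (2 * Mx + 1)) + 1) +
    2 ^ (s.length + L + a + as.sum + 8 * n + 1) with hNdef
  have hN : ∀ g : Idx (Fin (2 ^ L) × Fin (2 ^ a)) (8 * n :: pw as),
      idx (addr (chs as a L (8 * n)) as g.1 ++ List.replicate g.2.val true) < N := by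
    intro g
    have h1 := leaf_len (chs as a L (8 * n)) _ (fun j => chs_len as a L (8 * n) j) as (8 * n) g
    have h2 := idx_lt (addr (chs as a L (8 * n)) as g.1 ++ List.replicate g.2.val true)
    have h3 : 2 ^ ((addr (chs as a L (8 * n)) as g.1 ++ List.replicate g.2.val true).length + 1) ≤
        2 ^ (s.length + L + a + as.sum + 8 * n + 1) :=
      Nat.pow_le_pow_right (by norm_num) (by rw [hs]; omega)
    have h4 : 0 < 2 ^ (qb.eval (ℓ + θ.k * (2 * Mx + 1)) + 1) := by positivity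
    omega
  refine ⟨N, EvC θ.MV θ.M θ.pS θ.k as a L (8 * n) N hN, ?_, ?_⟩
  · intro A hA
    refine evC_of_easy θ hqb hA hk (by omega) hD hLa' hN (by rw [hNdef]; exact Nat.le_add_right _ _)
      le_rfl ?_
    have h1 := le_idx s
    have h2 : s.length < 2 ^ s.length := Nat.lt_two_pow_self
    have h3 : n ≤ s.length := by
      rw [hs, inst_len]; omega
    show θ.m0 ≤ idx s
    omega
  · intro _
    have h1 := evC_bound θ.MV θ.M θ.pS (k := θ.k) (n := n) (N := N) (u := u) (a := a) (L := L)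
      (ℓ := ℓ) (Mx := Mx) (La := La) hn5 (by omega) hk (by omega) hD hLa' hMV hN
    have h2 := ex_WW (n := n) (L := L) (a := a) (q := q) (R := q * (2 ^ (2 * u) + 1) + 1) hinv
      ha1 (by linarith)
    rw [hlaw (Fin (2 ^ L) × Fin (2 ^ a))] at h1
    have h3 := num_bound (k := θ.k) (q0 := q) (Mx := Mx) (T := ℓ + θ.k * (2 * Mx + 1) + 2) (u := u)
      (n := n) hn hu3 (by omega) (by omega) (by omega)
    have h4 : Ex unif (fun A : Fin N → Bool =>
        if EvC θ.MV θ.M θ.pS θ.k as a L (8 * n) N hN A then (1 : ℝ) else 0) ≤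
        θ.k * ((Mx + 1) * (2 ^ (ℓ + θ.k * (2 * Mx + 1) + 2) * (1 / 2) ^ (2 ^ (2 * u) + 1))) +
        Ex law (WW a L (1 / 2 ^ (4 * n)) q (q * (2 ^ (2 * u) + 1) + 1)) := by
      refine le_trans (le_of_eq ?_) h1
      congr 1
      funext A
      by_cases hE : EvC θ.MV θ.M θ.pS θ.k as a L (8 * n) N hN A
      · simp only [hE, if_true]
      · simp only [hE, if_false]
    linarith

theorem null_easyC (O : Set Oracle) (hO : ∀ A ∈ O, ∃ θ : Prm, A ∈ EasyC θ) :
    Null (fun _ => 0) O := by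
  classical
  intro δ hδ
  obtain ⟨δ', hδ', hsum⟩ := ENNReal.exists_pos_sum_of_countable
    (ENNReal.ofReal_pos.2 hδ).ne' Prm
  have hcov : ∀ θ : Prm, ∃ S : Set (List Bool), (∀ A ∈ EasyC θ, ∃ σ ∈ S, Extends A σ) ∧
      ∑' σ : S, ENNReal.ofReal (2 ^ ((0 : ℝ) - σ.1.length)) ≤ ENNReal.ofReal (δ' θ) := by
    intro θ
    obtain ⟨N, E, hE, hP⟩ := exists_event θ (δ := δ' θ) (by exact_mod_cast hδ' θ)
    refine ⟨(fun a : Fin N → Bool => List.ofFn a) '' {a | E a}, ?_, ?_⟩
    · intro A hA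
      refine ⟨List.ofFn (pre N A), ⟨pre N A, hE A hA, rfl⟩, ?_⟩
      intro i hi
      rw [List.getElem_ofFn]
      rfl
    · have hinj : Set.InjOn (fun a : Fin N → Bool => List.ofFn a) {a | E a} :=
        fun a _ b _ h => List.ofFn_injective h
      rw [tsum_image (fun σ : List Bool => ENNReal.ofReal (2 ^ ((0 : ℝ) - σ.length))) hinj]
      simp only [List.length_ofFn]
      rw [tsum_fintype, Finset.sum_const, nsmul_eq_mul, Finset.card_univ]
      rw [← ENNReal.ofReal_natCast, ← ENNReal.ofReal_mul (by positivity)]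
      apply ENNReal.ofReal_le_ofReal
      have h1 : Fintype.card {a : Fin N → Bool | E a} =
          (univ.filter (fun a : Fin N → Bool => E a)).card := by
        rw [← Fintype.card_subtype]
        rfl
      have h2 := card_of_Ex (fun a : Fin N → Bool => E a)
      rw [h1, zero_sub, h2]
      exact hP _
  choose S hS hSs using hcov
  refine ⟨⋃ θ, S θ, ?_, ?_⟩
  · intro A hA
    obtain ⟨θ, hθ⟩ := hO A hA
    obtain ⟨σ, hσ, hE⟩ := hS θ A hθ
    exact ⟨σ, Set.mem_iUnion.2 ⟨θ, hσ⟩, hE⟩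
  · refine (ENNReal.tsum_iUnion_le_tsum (fun σ : List Bool =>
      ENNReal.ofReal (2 ^ ((0 : ℝ) - σ.length))) S).trans ?_
    refine (ENNReal.tsum_le_tsum hSs).trans ?_
    refine le_trans (le_of_eq ?_) hsum.le
    congr 1
    funext θ
    exact ENNReal.ofReal_coe_nnreal

/-- the theorem -/
theorem main : Null (fun _ => 0) {A : Oracle | ¬ ∀ i, ∃ (C : ℕ → ℕ → Prop) (ρ : ℕ → ℕ),
    IsOpt A i C ρ ∧ ∀ (M : Comp) (S : List Bool → Bool), IsSig A i {q | S q = true} →
      {x | Fails M S C ρ x}.Infinite} := by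
  apply null_easyC
  intro A hA
  rw [Set.mem_ofPred_eq] at hA
  push Not at hA
  obtain ⟨i, hi⟩ := hA
  obtain ⟨M, S, hS, hfin⟩ := hi (Crel i A) rho (isOpt_Crel i A)
  obtain ⟨V, pS, ⟨MV, hMV⟩, hV⟩ := hS
  obtain ⟨m0, hm0⟩ := hfin.bddAbove
  refine ⟨⟨i, MV, pS, M, m0 + 1⟩, V, S, hMV, fun q => hV q, fun x hx hf => ?_⟩
  have h1 : x ≤ m0 := hm0 (show x ∈ {x | Fails M S (Crel i A) rho x} from hf)
  have h2 : m0 + 1 ≤ x := hx
  omega

end Pool.Agent.H585R2.CC
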