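import Pool.Agent.H585R2.CC.Defs

/-!
# The game between the computation and the adversary: objects of the proof

`X` is a finite set of blocks, with the ranks `r : X → ℕ`; every block has `c` children. The
positions are the pairs `(j, i) : X × Fin c`. `v : X × Fin c → Bool` are the values of the children.
A feasible solution is `none` (of rank `0`), or `some p` where `v p = true` (its rank is the rank
of the block). The adversary, asked about a feasible solution, presents a feasible solution of the
smallest greater rank.
-/

set_option autoImplicit false

namespace Pool.Agent.H585R2.CC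

open Finset H568R2 Pool.Agent.H676 Pool.Agent.H620R2.Gauge Pool.Agent.NPC Pool.Agent.H591R3.PHG

/-- Protocols: stop with an output; ask for the bit at a position; present a solution to the
adversary (the answer `none` means optimal, the answer `some o` is a counterexample). -/
inductive Gm (I : Type) : Type
  | out : Option I → Gm I
  | bit : I → (Bool → Gm I) → Gm I
  | pre : Option I → (Option (Option I) → Gm I) → Gm I

/-- every path of the protocol has at most `R` nodes (the output is counted, too) -/
def Bd {I : Type} : Gm I → ℕ → Prop
  | .out _, R => 1 ≤ R
  | .bit _ f, R => ∃ R', R' + 1 ≤ R ∧ ∀ b, Bd (f b) R'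
  | .pre _ f, R => ∃ R', R' + 1 ≤ R ∧ ∀ a, Bd (f a) R'

/-- on every path at most `q` solutions are presented to the adversary -/
def Bp {I : Type} : Gm I → ℕ → Prop
  | .out _, _ => True
  | .bit _ f, q => ∀ b, Bp (f b) q
  | .pre _ f, q => ∃ q', q' + 1 ≤ q ∧ ∀ a, Bp (f a) q'

section
variable {X : Type} [Fintype X] [DecidableEq X] {c : ℕ} (r : X → ℕ)

/-- the rank of a solution -/
def rk : Option (X × Fin c) → ℕ
  | none => 0
  | some p => r p.1

/-- the solution is feasible -/
def fs (v : X × Fin c → Bool) : Option (X × Fin c) → Prop
  | none => True
  | some p => v p = true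

/-- the solution is optimal -/
def Win (v : X × Fin c → Bool) (o : Option (X × Fin c)) : Prop :=
  fs v o ∧ ∀ p, v p = true → r p.1 ≤ rk r o

/-- the true positions in blocks of rank greater than `τ` -/
def cand (v : X × Fin c → Bool) (τ : ℕ) : Finset (X × Fin c) :=
  univ.filter (fun p => v p = true ∧ τ < r p.1)

/-- the key of a position (injective if `r` is injective) -/
def key (p : X × Fin c) : ℕ := r p.1 * c + p.2.val

open Classical in
/-- the true position with the smallest key in the blocks of rank greater than `τ` -/
noncomputable def nextP (v : X × Fin c → Bool) (τ : ℕ) : Option (X × Fin c) :=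
  if h : (cand r v τ).Nonempty then
    some (Finset.exists_min_image (cand r v τ) (key r) h).choose else none

open Classical in
/-- the answer of the adversary to the presentation of the solution `o` -/
noncomputable def ans (v : X × Fin c → Bool) (o : Option (X × Fin c)) :
    Option (Option (X × Fin c)) :=
  if fs v o then (nextP r v (rk r o)).map some else some none

/-- the output of the protocol; `z` are the bits and `v` the values of the children -/
noncomputable def play (v z : X × Fin c → Bool) : Gm (X × Fin c) → Option (X × Fin c)
  | .out o => o
  | .bit p f => play v z (f (z p))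
  | .pre o f => play v z (f (ans r v o))

open Classical in
/-- the number of blocks with a true child -/
noncomputable def nfeas (v : X × Fin c → Bool) : ℕ :=
  (univ.filter (fun j : X => ∃ i : Fin c, v (j, i) = true)).card

/-- The adversary, given a decoding `dc` and a coding `cd` of the solutions. -/
noncomputable def advT (dc : ℕ → Option (Option (X × Fin c))) (cd : Option (X × Fin c) → ℕ)
    (v : X × Fin c → Bool) (y : ℕ) : Option ℕ :=
  match dc y with
  | none => some 0
  | some o => (ans r v o).map cd

end

/-- average over the random process of the stages -/
noncomputable def PW {X : Type} [Fintype X] [DecidableEq X] (t ξ : ℝ) (smin : ℕ)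
    (W : (X → Option Bool) → ℝ) : (cs : List ℕ) → (Idx X cs → Option Bool) → ℝ
  | [], s => W s
  | _ :: cs, s => ∑ ρ : Idx X cs → St _, wt (G := Idx X cs) t t ξ smin s ρ *
      PW t ξ smin W cs (fun h => (ρ h).1)

/-- the value of a list of bits as a binary number, the lowest digit first -/
def unb : List Bool → ℕ
  | [] => 0
  | b :: l => b.toNat + 2 * unb l

/-- The relation of the hard optimization problem for `k` quantifiers. The instance is
`⟨1^L, ⟨1^a, r⟩⟩`, where `r` contains further parameters; the solution `⟨j, i⟩` consists of a string
`j` of length `L` (the block) and a string `i` of length `a` (the child). -/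
def Crel (k : ℕ) (A : Oracle) (x y : ℕ) : Prop :=
  y = 0 ∨ ((str y).length < (str x).length ∧
    (unpair (str y)).1.length = (unpair (str x)).1.length ∧
    (unpair (str y)).2.length = (unpair (unpair (str x)).2).1.length ∧
    ((parse k (unpair (unpair (str x)).2).2).1.foldr up
      (bitv A (unpair (parse k (unpair (unpair (str x)).2).2).2).1.length))
      (str x ++ (unpair (str y)).1 ++ (unpair (str y)).2) = true)

/-- the objective function: the number coded by the block -/
def rho (y : ℕ) : ℕ := idx (unpair (str y)).1

/-- the instance -/
def inst (as : List ℕ) (a L w : ℕ) : List Bool :=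
  pairBits (List.replicate L true) (pairBits (List.replicate a true) (enc as w []))

/-- the string for a child of a block -/
def chs (as : List ℕ) (a L w : ℕ) (p : Fin (2 ^ L) × Fin (2 ^ a)) : List Bool :=
  inst as a L w ++ bitsOf L p.1.val ++ bitsOf a p.2.val

/-- the values of the children -/
def vv (as : List ℕ) (a L w : ℕ) (A : Oracle) : Fin (2 ^ L) × Fin (2 ^ a) → Bool :=
  Tr (w :: pw as) (leaves (chs as a L w) as w A)

/-- the rank of a block -/
def rB (L : ℕ) (j : Fin (2 ^ L)) : ℕ := idx (bitsOf L j.val)

/-- the code of a solution -/
def cdS (a L : ℕ) : Option (Fin (2 ^ L) × Fin (2 ^ a)) → ℕ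
  | none => 0
  | some p => idx (pairBits (bitsOf L p.1.val) (bitsOf a p.2.val))

open Classical in
/-- the solution coded by a number -/
noncomputable def dcS (as : List ℕ) (a L w : ℕ) (y : ℕ) : Option (Option (Fin (2 ^ L) × Fin (2 ^ a))) :=
  if y = 0 then some none
  else if h : (str y).length < (inst as a L w).length ∧
      ∃ p : Fin (2 ^ L) × Fin (2 ^ a), (unpair (str y)).1 = bitsOf L p.1.val ∧
        (unpair (str y)).2 = bitsOf a p.2.val then some (some h.2.choose) else none

end Pool.Agent.H585R2.CC
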