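import Pool.Agent.H585R2.CC.GDefs
import Pool.Agent.H591R3.PHG.Main

/-!
# The random projections for a general functional

`S` is a functional of the values of all alternating quantifiers (with the bounds `m ≤ Mx`, on all
strings of length at most `ℓ`) and of the values at all the roots.
-/

set_option autoImplicit false

namespace Pool.Agent.H585R2.CC

open Finset H568R2 Pool.Agent.H676 Pool.Agent.H620R2.Gauge Pool.Agent.NPC Pool.Agent.H591R3.PHG

theorem Ex_stage {X : Type} [Fintype X] [DecidableEq X] {c smin : ℕ} {t t' ξ : ℝ} (ht : 0 < t)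
    (ht1 : t < 1) (ht' : 0 < t') (hs : 1 ≤ smin) (cs : List ℕ) (s : Idx X (c :: cs) → Option Bool)
    (Φ : (Idx X (c :: cs) → Bool) → (X → Bool) → ℝ) :
    Ex (ber t) (fun z : Idx X (c :: cs) → Bool => Φ z (Tr (c :: cs) (val s z))) =
      ∑ ρ : Idx X cs → St c, wt (G := Idx X cs) t t' ξ smin s ρ *
        Ex (ber t') (fun z : Idx X cs → Bool =>
          Φ (XX (G := Idx X cs) s ρ z) (Tr cs (val (fun h => (ρ h).1) z))) := by
  classical
  have h1 := stage (G := Idx X cs) (ξ := ξ) ht ht1 ht' hs s (fun z : Idx X cs × Fin c → Bool =>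
    Φ z (Tr (c :: cs) (val (I := Idx X cs × Fin c) s z)))
  refine Eq.trans ?_ (h1.trans ?_)
  · rfl
  · refine Finset.sum_congr rfl fun ρ _ => ?_
    by_cases hρ : wt (G := Idx X cs) t t' ξ smin s ρ = 0
    · rw [hρ, zero_mul, zero_mul]
    · have h2 : ∀ z : Idx X cs → Bool,
          Tr (c :: cs) (val (I := Idx X cs × Fin c) s (XX s ρ z)) =
            Tr (X := X) cs (val (fun h => (ρ h).1) z) := by
        intro z
        show Tr cs (fun g => decide (∀ i : Fin c,
          val (I := Idx X cs × Fin c) s (XX s ρ z) (g, i) = false)) = _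
        congr 1
        funext g'
        exact val_stage (G := Idx X cs) s ρ hρ z g'
      simp only [h2]

theorem PW_cons {X : Type} [Fintype X] [DecidableEq X] (t ξ : ℝ) (smin : ℕ)
    (W : (X → Option Bool) → ℝ) (c : ℕ) (cs : List ℕ) (s : Idx X (c :: cs) → Option Bool) :
    PW t ξ smin W (c :: cs) s = ∑ ρ : Idx X cs → St c, wt (G := Idx X cs) t t ξ smin s ρ *
      PW t ξ smin W cs (fun h => (ρ h).1) := rfl

theorem PW_nonneg {X : Type} [Fintype X] [DecidableEq X] {t ξ : ℝ} {smin : ℕ} (ht : 0 < t)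
    (ht1 : t < 1) (hξ : 0 ≤ ξ) (hξ1 : ξ ≤ 1) (hs : 1 ≤ smin)
    (h : (1 - ξ) * (1 - t) ^ smin / t + ξ * (1 - t) ^ smin ≤ 1)
    {W : (X → Option Bool) → ℝ} (hW0 : ∀ s, 0 ≤ W s) :
    ∀ (cs : List ℕ) (s : Idx X cs → Option Bool), 0 ≤ PW t ξ smin W cs s := by
  intro cs
  induction cs with
  | nil => intro s; exact hW0 s
  | cons c cs ih =>
    intro s
    rw [PW_cons]
    exact Finset.sum_nonneg fun ρ _ =>
      mul_nonneg (wt_nonneg ht ht1 ht hξ hξ1 hs h s ρ) (ih _)

theorem Ex_le_one {X : Type} [Fintype X] [DecidableEq X] {t : ℝ} (h0 : 0 ≤ t) (h1 : t ≤ 1)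
    {Φ : (X → Bool) → ℝ} (hΦ : ∀ z, Φ z ≤ 1) : Ex (ber t) Φ ≤ 1 :=
  (Ex_mono (G := fun _ => (1 : ℝ)) (ber_nonneg_m h0 h1) hΦ).trans
    (le_of_eq (Ex_const (ber_sum_m t) 1))

theorem gen_ind {X : Type} [Fintype X] [DecidableEq X] {n u ℓ Mx : ℕ} (hn : 5 ≤ n)
    (hu : 8 * u ≤ n) (S : (ℕ → List Bool → Bool) → (X → Bool) → ℝ)
    (hS1 : ∀ h v, S h v ≤ 1) (W : (X → Option Bool) → ℝ) (hW0 : ∀ s, 0 ≤ W s)
    (hW : ∀ (s : X → Option Bool) (F : ℕ → List Bool → (X → Bool) → Bool),
      (∀ m ≤ Mx, ∀ y : List Bool, y.length ≤ ℓ → DTr (2 ^ (2 * u)) (F m y)) →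
      Ex (ber (1 / 2 ^ (4 * n))) (fun z => S (fun m y => F m y z) (val s z)) ≤ W s) :
    ∀ (k : ℕ) (cs : List ℕ), cs.length = k → ∀ (s : Idx X cs → Option Bool)
      (F : ℕ → List Bool → (Idx X cs → Bool) → Bool),
      (∀ m ≤ Mx, ∀ y : List Bool, y.length ≤ ℓ + k * (2 * m + 1) →
        DTr (2 ^ (2 * u)) (F m y)) → ∀ b : Bool,
      Ex (ber (1 / 2 ^ (4 * n))) (fun z : Idx X cs → Bool =>
        S (fun m y => QF m (F m) k b y z) (Tr cs (val s z))) ≤
        k * ((Mx + 1) * (2 ^ (ℓ + k * (2 * Mx + 1) + 2) * (1 / 2) ^ (2 ^ (2 * u) + 1))) +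
        PW (X := X) (1 / 2 ^ (4 * n)) (1 / 2 ^ (2 * n)) (8 * n * 2 ^ (4 * n)) W cs s := by
  classical
  set t : ℝ := 1 / 2 ^ (4 * n) with ht
  set ξ : ℝ := 1 / 2 ^ (2 * n) with hξ
  set smin : ℕ := 8 * n * 2 ^ (4 * n) with hsmin
  set r : ℕ := 2 ^ (2 * u) with hr
  have ht0 : 0 < t := by positivity
  have ht2 : t ≤ 1 / 2 := by
    rw [ht]
    apply one_div_le_one_div_of_le (by norm_num)
    calc (2 : ℝ) = 2 ^ 1 := by norm_num
      _ ≤ 2 ^ (4 * n) := pow_le_pow_right₀ (by norm_num) (by omega)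
  have ht1 : t < 1 := by linarith
  have hξ0 : 0 < ξ := by positivity
  have hξ1 : ξ ≤ 1 := by
    rw [hξ, div_le_one (by positivity)]
    exact one_le_pow₀ (by norm_num)
  have hs1 : 1 ≤ smin := by
    rw [hsmin]
    have : 0 < 8 * n * 2 ^ (4 * n) := by positivity
    omega
  have hr1 : 1 ≤ r := Nat.one_le_two_pow
  obtain ⟨hl1, hl2, hl3⟩ := lam_bound hn hu
  have hlam4 : (1 : ℝ) / 2 ^ (6 * n) ≤ 1 / 4 := by
    apply one_div_le_one_div_of_le (by norm_num)
    calc (4 : ℝ) = 2 ^ 2 := by norm_num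
      _ ≤ 2 ^ (6 * n) := pow_le_pow_right₀ (by norm_num) (by omega)
  -- the condition for the nonnegativity of the weights
  have hcond : (1 - ξ) * (1 - t) ^ smin / t + ξ * (1 - t) ^ smin ≤ 1 := by
    have h1 : (1 - t) ^ smin / t ≤ 1 / 4 := hl1.trans hlam4
    have h2 : (1 - t) ^ smin ≤ 1 / 4 := by
      have h3 : (1 - t) ^ smin ≤ 1 / 4 * t := (div_le_iff₀ ht0).1 h1
      nlinarith
    have h0 : 0 ≤ (1 - t) ^ smin := pow_nonneg (by linarith) _
    have h5 : 0 ≤ (1 - t) ^ smin / t := by positivity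
    have h3 : (1 - ξ) * (1 - t) ^ smin / t ≤ (1 - t) ^ smin / t := by
      rw [mul_div_assoc]
      nlinarith
    have h4 : ξ * (1 - t) ^ smin ≤ (1 - t) ^ smin := by nlinarith
    linarith
  intro k
  induction k with
  | zero =>
    intro cs hcs s F hF b
    match cs, hcs with
    | [], _ =>
      have h1 := hW s F (fun m hm y hy => hF m hm y (by omega))
      have e0 : ∀ (z : X → Bool), (fun (m : ℕ) (y : List Bool) => QF m (F m) 0 b y z) =
          fun m y => F m y z := by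
        intro z
        rfl
      have h2 : Ex (ber t) (fun z : Idx X [] → Bool =>
          S (fun m y => QF m (F m) 0 b y z) (Tr [] (val s z))) =
          Ex (ber t) (fun z : X → Bool => S (fun m y => F m y z) (val s z)) := by
        rfl
      rw [h2]
      refine h1.trans ?_
      have h3 : PW (X := X) t ξ smin W [] s = W s := rfl
      rw [h3]
      push_cast
      linarith
  | succ k ih =>
    intro cs hcs s F hF b
    match cs, hcs with
    | c :: cs, hcs =>
      have hlen : cs.length = k := by simpa using hcs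
      rw [PW_cons]
      rw [Ex_stage (t' := t) (ξ := ξ) (smin := smin) ht0 ht1 ht0 hs1 cs s
        (fun z v => S (fun m y => QF m (F m) (k + 1) b y z) v)]
      have hsw : ∀ m ≤ Mx, ∑ ρ : Idx X cs → St c, wt (G := Idx X cs) t t ξ smin s ρ *
          (if ¬ ∀ y : List Bool, y.length ≤ ℓ + k * (2 * m + 1) → ∀ b,
            DTr r (fun z : Idx X cs → Bool => QF m (F m) 1 b y (XX s ρ z)) then (1 : ℝ) else 0) ≤
          2 ^ (ℓ + (k + 1) * (2 * Mx + 1) + 2) * (1 / 2) ^ (r + 1) := by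
        intro m hm
        have hℓ : ℓ + (k + 1) * (2 * m + 1) = ℓ + k * (2 * m + 1) + (2 * m + 1) := by ring
        have h1 := stage_switch (G := Idx X cs) (c := c) (smin := smin) (r := r) (t := t) (t' := t)
          (ξ := ξ) (lam := 1 / 2 ^ (6 * n)) ht0 ht2 ht0 ht1.le hξ0 hξ1 hs1 hl1 hlam4 hr1 hl3 s m
          (ℓ + k * (2 * m + 1)) (F m) (fun y' hy' => hF m hm y' (by rw [hℓ]; exact hy'))
        have h6 : 2 ^ (ℓ + k * (2 * m + 1) + 2) * (16 * (r : ℝ) * (1 / 2 ^ (6 * n))) ^ (r + 1) ≤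
            2 ^ (ℓ + (k + 1) * (2 * Mx + 1) + 2) * (1 / 2) ^ (r + 1) := by
          apply mul_le_mul
          · apply pow_le_pow_right₀ (by norm_num)
            have h7 : (k + 1) * (2 * m + 1) ≤ (k + 1) * (2 * Mx + 1) :=
              Nat.mul_le_mul_left _ (by omega)
            have h8 : k * (2 * m + 1) ≤ (k + 1) * (2 * m + 1) := Nat.mul_le_mul_right _ (by omega)
            omega
          · exact pow_le_pow_left₀ (by positivity) hl2 _
          · positivity
          · positivity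
        refine le_trans (le_of_eq (Finset.sum_congr rfl fun ρ _ => ?_)) (h1.trans h6)
        exact congrArg (fun q => wt (G := Idx X cs) t t ξ smin s ρ * q) (if_congr Iff.rfl rfl rfl)
      set bad : ℕ → (Idx X cs → St c) → Prop := fun m ρ => ¬ ∀ y : List Bool,
        y.length ≤ ℓ + k * (2 * m + 1) → ∀ b,
        DTr r (fun z : Idx X cs → Bool => QF m (F m) 1 b y (XX s ρ z)) with hbad
      have hnn : ∀ ρ : Idx X cs → St c, 0 ≤ wt (G := Idx X cs) t t ξ smin s ρ := fun ρ =>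
        wt_nonneg ht0 ht1 ht0 hξ0.le hξ1 hs1 hcond s ρ
      set E₁ : ℝ := k * ((Mx + 1) * (2 ^ (ℓ + k * (2 * Mx + 1) + 2) * (1 / 2) ^ (r + 1)))
        with hE₁
      have hE₁0 : 0 ≤ E₁ := by positivity
      have hterm : ∀ ρ : Idx X cs → St c, wt (G := Idx X cs) t t ξ smin s ρ *
          Ex (ber t) (fun z : Idx X cs → Bool =>
            S (fun m y => QF m (F m) (k + 1) b y (XX (G := Idx X cs) s ρ z))
              (Tr cs (val (fun h => (ρ h).1) z)))
          ≤ ∑ m ∈ Finset.range (Mx + 1), wt (G := Idx X cs) t t ξ smin s ρ *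
              (if bad m ρ then (1 : ℝ) else 0) +
            wt (G := Idx X cs) t t ξ smin s ρ * E₁ +
            wt (G := Idx X cs) t t ξ smin s ρ * PW t ξ smin W cs (fun h => (ρ h).1) := by
        intro ρ
        rw [← Finset.mul_sum, ← mul_add, ← mul_add]
        apply mul_le_mul_of_nonneg_left _ (hnn ρ)
        have hs0 : ∀ m ∈ Finset.range (Mx + 1), (0 : ℝ) ≤ if bad m ρ then (1 : ℝ) else 0 := by
          intro m _
          split_ifs <;> norm_num
        have h4 : 0 ≤ PW t ξ smin W cs (fun h : Idx X cs => (ρ h).1) :=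
          PW_nonneg ht0 ht1 hξ0.le hξ1 hs1 hcond hW0 cs _
        by_cases hb : ∃ m ≤ Mx, bad m ρ
        · obtain ⟨m, hm, hb⟩ := hb
          have h3 : Ex (ber t) (fun z : Idx X cs → Bool =>
              S (fun m y => QF m (F m) (k + 1) b y (XX (G := Idx X cs) s ρ z))
              (Tr cs (val (fun h => (ρ h).1) z))) ≤ 1 := Ex_le_one ht0.le ht1.le fun z => hS1 _ _
          have h5 := Finset.single_le_sum hs0 (Finset.mem_range.2 (Nat.lt_succ_of_le hm))
          rw [if_pos hb] at h5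
          linarith
        · push Not at hb
          have hgood : ∀ m ≤ Mx, ∀ y : List Bool, y.length ≤ ℓ + k * (2 * m + 1) → ∀ b,
            DTr r (fun z : Idx X cs → Bool => QF m (F m) 1 b y (XX s ρ z)) := fun m hm =>
              hb m hm
          have h5 := ih cs hlen (fun h => (ρ h).1)
            (fun m y' z => QF m (F m) 1 (bot b k) y' (XX (G := Idx X cs) s ρ z))
            (fun m hm y' hy' => hgood m hm y' hy' _) b
          have h6 : Ex (ber t) (fun z : Idx X cs → Bool =>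
              S (fun m y => QF m (F m) (k + 1) b y (XX (G := Idx X cs) s ρ z))
              (Tr cs (val (fun h => (ρ h).1) z))) =
              Ex (ber t) (fun z : Idx X cs → Bool =>
              S (fun m y => QF m ((fun m y' z => QF m (F m) 1 (bot b k) y'
                (XX (G := Idx X cs) s ρ z)) m) k b y z)
              (Tr cs (val (fun h => (ρ h).1) z))) := by
            congr 1
            funext z
            congr 1
            funext m y
            rw [QF_peel, QF_comp m (fun y' => QF m (F m) 1 (bot b k) y') (XX (G := Idx X cs) s ρ)]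
          rw [h6]
          have h7 := Finset.sum_nonneg hs0
          linarith
      refine (Finset.sum_le_sum fun ρ _ => hterm ρ).trans ?_
      rw [Finset.sum_add_distrib, Finset.sum_add_distrib, ← Finset.sum_mul,
        wt_sum ht0 ht1 ht0 hs1 s, one_mul, Finset.sum_comm]
      have h7 : E₁ ≤ k * ((Mx + 1) * (2 ^ (ℓ + (k + 1) * (2 * Mx + 1) + 2) *
          (1 / 2) ^ (r + 1))) := by
        rw [hE₁]
        apply mul_le_mul_of_nonneg_left _ (by positivity)
        apply mul_le_mul_of_nonneg_left _ (by positivity)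
        apply mul_le_mul_of_nonneg_right _ (by positivity)
        apply pow_le_pow_right₀ (by norm_num)
        have h8 : k * (2 * Mx + 1) ≤ (k + 1) * (2 * Mx + 1) := Nat.mul_le_mul_right _ (by omega)
        omega
      have h8 : ∑ m ∈ Finset.range (Mx + 1), ∑ ρ : Idx X cs → St c,
          wt (G := Idx X cs) t t ξ smin s ρ * (if bad m ρ then (1 : ℝ) else 0) ≤
          (Mx + 1) * (2 ^ (ℓ + (k + 1) * (2 * Mx + 1) + 2) * (1 / 2) ^ (r + 1)) := by
        refine (Finset.sum_le_sum fun m hm =>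
          hsw m (Nat.lt_succ_iff.1 (Finset.mem_range.1 hm))).trans ?_
        rw [Finset.sum_const, Finset.card_range, nsmul_eq_mul]
        push_cast
        exact le_refl _
      push_cast
      have h9 : ((k : ℝ) + 1) * ((Mx + 1) * (2 ^ (ℓ + (k + 1) * (2 * Mx + 1) + 2) *
          (1 / 2) ^ (r + 1))) =
        k * ((Mx + 1) * (2 ^ (ℓ + (k + 1) * (2 * Mx + 1) + 2) * (1 / 2) ^ (r + 1))) +
          (Mx + 1) * (2 ^ (ℓ + (k + 1) * (2 * Mx + 1) + 2) * (1 / 2) ^ (r + 1)) := by ring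
      rw [h9]
      linarith

theorem gen_leaf {X : Type} [Fintype X] [DecidableEq X] {n u ℓ Mx : ℕ} (hn : 5 ≤ n)
    (hu : 8 * u ≤ n) (S : (ℕ → List Bool → Bool) → (X → Bool) → ℝ)
    (hS1 : ∀ h v, S h v ≤ 1) (W : (X → Option Bool) → ℝ) (hW0 : ∀ s, 0 ≤ W s)
    (hW : ∀ (s : X → Option Bool) (F : ℕ → List Bool → (X → Bool) → Bool),
      (∀ m ≤ Mx, ∀ y : List Bool, y.length ≤ ℓ → DTr (2 ^ (2 * u)) (F m y)) →
      Ex (ber (1 / 2 ^ (4 * n))) (fun z => S (fun m y => F m y z) (val s z)) ≤ W s)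
    (k : ℕ) (cs : List ℕ) (hcs : cs.length = k)
    (F : ℕ → List Bool → (Idx X (8 * n :: cs) → Bool) → Bool)
    (hF : ∀ m ≤ Mx, ∀ y : List Bool, y.length ≤ ℓ + k * (2 * m + 1) →
      DTr (2 ^ (2 * u)) (F m y)) (b : Bool) :
    Ex (ber (1 / 2)) (fun z : Idx X (8 * n :: cs) → Bool =>
        S (fun m y => QF m (F m) k b y z) (Tr (8 * n :: cs) z)) ≤
      k * ((Mx + 1) * (2 ^ (ℓ + k * (2 * Mx + 1) + 2) * (1 / 2) ^ (2 ^ (2 * u) + 1))) +
      Ex (nxt (1 / 2) (1 / 2 ^ (4 * n)) 0 (8 * n) (8 * n) law0)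
        (PW (X := X) (1 / 2 ^ (4 * n)) (1 / 2 ^ (2 * n)) (8 * n * 2 ^ (4 * n)) W cs) := by
  classical
  set t : ℝ := 1 / 2 ^ (4 * n) with ht
  have ht0 : 0 < t := by positivity
  have hpow : (1 - 1 / 2 : ℝ) ^ (8 * n) / t ≤ 1 := by
    rw [ht, div_le_one (by positivity)]
    rw [show (1 - 1 / 2 : ℝ) = 1 / 2 by norm_num, one_div_pow]
    apply one_div_le_one_div_of_le (by positivity)
    exact pow_le_pow_right₀ (by norm_num) (by omega)
  have hs1 : 1 ≤ 8 * n := by omega
  have hcond : (1 - 0) * (1 - 1 / 2 : ℝ) ^ (8 * n) / t + 0 * (1 - 1 / 2 : ℝ) ^ (8 * n) ≤ 1 := by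
    rw [zero_mul, add_zero, sub_zero, one_mul]
    exact hpow
  set s0 : Idx X (8 * n :: cs) → Option Bool := fun _ => none with hs0
  have h00 : (fun z : Idx X (8 * n :: cs) → Bool =>
        S (fun m y => QF m (F m) k b y z) (Tr (8 * n :: cs) z)) =
      (fun z : Idx X (8 * n :: cs) → Bool =>
        S (fun m y => QF m (F m) k b y z) (Tr (8 * n :: cs) (val s0 z))) := rfl
  rw [h00, Ex_stage (t := 1 / 2) (t' := t) (ξ := 0) (smin := 8 * n) (by norm_num) (by norm_num)
    ht0 hs1 cs s0 (fun z v => S (fun m y => QF m (F m) k b y z) v)]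
  set E : ℝ := k * ((Mx + 1) * (2 ^ (ℓ + k * (2 * Mx + 1) + 2) * (1 / 2) ^ (2 ^ (2 * u) + 1)))
    with hE
  set V := PW (X := X) t (1 / 2 ^ (2 * n)) (8 * n * 2 ^ (4 * n)) W cs with hV
  have hterm : ∀ ρ : Idx X cs → St (8 * n),
      wt (G := Idx X cs) (1 / 2) t 0 (8 * n) s0 ρ *
        Ex (ber t) (fun z : Idx X cs → Bool =>
          S (fun m y => QF m (F m) k b y (XX (G := Idx X cs) s0 ρ z))
            (Tr cs (val (fun h => (ρ h).1) z))) ≤
      wt (G := Idx X cs) (1 / 2) t 0 (8 * n) s0 ρ * E +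
        wt (G := Idx X cs) (1 / 2) t 0 (8 * n) s0 ρ * V (fun h => (ρ h).1) := by
    intro ρ
    rw [← mul_add]
    apply mul_le_mul_of_nonneg_left _
      (wt_nonneg (by norm_num) (by norm_num) ht0 le_rfl zero_le_one hs1 hcond s0 ρ)
    have h5 := gen_ind hn hu S hS1 W hW0 hW k cs hcs (fun h => (ρ h).1)
      (fun m y' z => F m y' (XX (G := Idx X cs) s0 ρ z))
      (fun m hm y' hy' => DTr_XX (G := Idx X cs) s0 ρ (hF m hm y' hy')) b
    refine le_trans (le_of_eq ?_) h5
    congr 1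
    funext z
    congr 1
    funext m y
    rw [QF_comp m (F m) (XX (G := Idx X cs) s0 ρ)]
  refine (Finset.sum_le_sum fun ρ _ => hterm ρ).trans ?_
  rw [Finset.sum_add_distrib, ← Finset.sum_mul,
    wt_sum (by norm_num) (by norm_num) ht0 hs1 s0, one_mul]
  have h8 := law_stage (G := Idx X cs) (c := 8 * n) (smin := 8 * n) (t := 1 / 2) (t' := t) (ξ := 0)
    law0 V
  rw [Ex_law0] at h8
  rw [← h8]
  exact le_of_eq rfl

end Pool.Agent.H585R2.CC
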