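import Pool.Agent.H585R2.CC.GDefs
import Pool.Agent.H591R3.PHG.LangTr
import Pool.Agent.H620R2.Gauge.Event

/-!
# Task INS: the instance, coding of solutions
-/

set_option autoImplicit false

namespace Pool.Agent.H585R2.CC

open Finset H568R2 Pool.Agent.H676 Pool.Agent.H620R2.Gauge Pool.Agent.NPC Pool.Agent.H591R3.PHG

theorem rB_inj (L : ℕ) : Function.Injective (rB L) := by
  intro j j' h
  unfold rB at h
  have h1 := congrArg str h
  rw [str_idx, str_idx] at h1
  exact Fin.ext (bitsOf_inj j.isLt j'.isLt h1)

theorem rB_pos {L : ℕ} (hL : 1 ≤ L) (j : Fin (2 ^ L)) : 0 < rB L j := by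
  unfold rB
  have h := le_idx (bitsOf L j.val)
  rw [length_bitsOf] at h
  have h2 : 2 ^ 1 ≤ 2 ^ L := Nat.pow_le_pow_right (by norm_num) hL
  omega

theorem dcS_zero (as : List ℕ) (a L w : ℕ) : dcS as a L w 0 = some none := by
  unfold dcS
  rw [if_pos rfl]

theorem INS_str_zero : str 0 = [] := by
  have h : str (idx []) = [] := str_idx []
  exact h

theorem INS_len_pair (x w : List Bool) :
    (pairBits x w).length = 2 * x.length + 1 + w.length :=
  Pool.Agent.H620R2.Gauge.length_pairBits x w

theorem inst_len (as : List ℕ) (a L w : ℕ) :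
    (inst as a L w).length = 2 * L + 2 * a + 2 * as.sum + as.length + 2 * w + 3 := by
  unfold inst
  rw [INS_len_pair, INS_len_pair, enc_len, List.length_replicate, List.length_replicate,
    List.length_nil]
  ring

theorem cdS_len (as : List ℕ) (a L w : ℕ) (o : Option (Fin (2 ^ L) × Fin (2 ^ a))) :
    (str (cdS a L o)).length < (inst as a L w).length := by
  rw [inst_len]
  cases o with
  | none =>
    show (str 0).length < _
    rw [INS_str_zero, List.length_nil]
    omega
  | some p =>
    show (str (idx (pairBits (bitsOf L p.1.val) (bitsOf a p.2.val)))).length < _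
    rw [str_idx, INS_len_pair, length_bitsOf, length_bitsOf]
    omega

/-- the decoding -/
theorem INS_dcS (as : List ℕ) (a L w y : ℕ) (o : Option (Fin (2 ^ L) × Fin (2 ^ a))) :
    dcS as a L w y = some o ↔ (y = 0 ∧ o = none) ∨ (y ≠ 0 ∧
      ∃ p : Fin (2 ^ L) × Fin (2 ^ a), o = some p ∧
        (str y).length < (inst as a L w).length ∧
        (unpair (str y)).1 = bitsOf L p.1.val ∧ (unpair (str y)).2 = bitsOf a p.2.val) := by
  classical
  unfold dcS
  by_cases hy : y = 0
  · rw [if_pos hy]
    constructor
    · intro h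
      exact Or.inl ⟨hy, (Option.some.inj h).symm⟩
    · rintro (⟨_, h⟩ | ⟨h, _⟩)
      · rw [h]
      · exact absurd hy h
  · rw [if_neg hy]
    by_cases h : (str y).length < (inst as a L w).length ∧
      ∃ p : Fin (2 ^ L) × Fin (2 ^ a), (unpair (str y)).1 = bitsOf L p.1.val ∧
        (unpair (str y)).2 = bitsOf a p.2.val
    · rw [dif_pos h]
      constructor
      · intro h'
        refine Or.inr ⟨hy, h.2.choose, (Option.some.inj h').symm, h.1, h.2.choose_spec⟩
      · rintro (⟨h', _⟩ | ⟨_, p, hp, _, h1, h2⟩)
        · exact absurd h' hy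
        · rw [hp]
          congr 2
          have hs := h.2.choose_spec
          apply Prod.ext
          · apply Fin.ext
            apply bitsOf_inj (Fin.isLt _) (Fin.isLt _)
            rw [← hs.1, h1]
          · apply Fin.ext
            apply bitsOf_inj (Fin.isLt _) (Fin.isLt _)
            rw [← hs.2, h2]
    · rw [dif_neg h]
      constructor
      · intro h'
        exact absurd h' (by simp)
      · rintro (⟨h', _⟩ | ⟨_, p, _, h0, h1, h2⟩)
        · exact absurd h' hy
        · exact absurd ⟨h0, p, h1, h2⟩ h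

theorem dcS_cdS (as : List ℕ) (a L w : ℕ) (hL : 1 ≤ L) (o : Option (Fin (2 ^ L) × Fin (2 ^ a))) :
    dcS as a L w (cdS a L o) = some o := by
  rw [INS_dcS]
  cases o with
  | none => exact Or.inl ⟨rfl, rfl⟩
  | some p =>
    right
    have h0 := cdS_len as a L w (some p)
    have h1 : str (cdS a L (some p)) = pairBits (bitsOf L p.1.val) (bitsOf a p.2.val) :=
      str_idx _
    refine ⟨?_, p, rfl, h0, ?_, ?_⟩
    · intro h
      rw [h, INS_str_zero] at h1
      have h2 := congrArg List.length h1
      rw [INS_len_pair, List.length_nil] at h2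
      omega
    · rw [h1, unpair_pairBits]
    · rw [h1, unpair_pairBits]

theorem chs_inj (as : List ℕ) (a L w : ℕ) : Function.Injective (chs as a L w) := by
  intro p p' h
  unfold chs at h
  have h1 := List.append_inj h (by
    rw [List.length_append, List.length_append, length_bitsOf, length_bitsOf])
  have h2 := List.append_cancel_left h1.1
  exact Prod.ext (Fin.ext (bitsOf_inj (Fin.isLt _) (Fin.isLt _) h2))
    (Fin.ext (bitsOf_inj (Fin.isLt _) (Fin.isLt _) h1.2))

theorem chs_len (as : List ℕ) (a L w : ℕ) (p : Fin (2 ^ L) × Fin (2 ^ a)) :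
    (chs as a L w p).length = (inst as a L w).length + L + a := by
  unfold chs
  rw [List.length_append, List.length_append, length_bitsOf, length_bitsOf]

theorem INS_vv (as : List ℕ) (a L w : ℕ) (A : Oracle) (p : Fin (2 ^ L) × Fin (2 ^ a)) :
    vv as a L w A p = (as.foldl (fun v a => up a v) (bitv A w)) (chs as a L w p) := by
  rw [← LangTrAux.Tr_addr (chs as a L w) as (bitv A w) p]
  show Tr (pw as) (fun g : Idx (Fin (2 ^ L) × Fin (2 ^ a)) (pw as) => decide (∀ i : Fin w,
    A (addr (chs as a L w) as g ++ List.replicate i.val true) = false)) p = _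
  congr 1
  funext g
  unfold bitv
  congr 1
  apply propext
  constructor
  · intro h i hi
    exact h ⟨i, hi⟩
  · intro h i
    exact h i.val i.isLt

theorem INS_Crel (A : Oracle) (k : ℕ) (as : List ℕ) (hk : as.length = k) (a L w : ℕ) (y : ℕ) :
    Crel k A (idx (inst as a L w)) y ↔ y = 0 ∨ ((str y).length < (inst as a L w).length ∧
      (unpair (str y)).1.length = L ∧ (unpair (str y)).2.length = a ∧
      (as.foldl (fun v a => up a v) (bitv A w))
        (inst as a L w ++ (unpair (str y)).1 ++ (unpair (str y)).2) = true) := by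
  have e1 : unpair (inst as a L w) = (List.replicate L true,
      pairBits (List.replicate a true) (enc as w [])) := unpair_pairBits _ _
  have e2 : unpair (pairBits (List.replicate a true) (enc as w [])) =
    (List.replicate a true, enc as w []) := unpair_pairBits _ _
  have e3 : parse k (enc as w []) = (as.reverse, pairBits (List.replicate w true) []) := by
    rw [← hk]
    exact LangTrAux.parse_enc as w []
  unfold Crel
  rw [str_idx, e1]
  dsimp only
  rw [e2]
  dsimp only
  rw [e3]
  dsimp only
  rw [unpair_pairBits]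
  dsimp only
  rw [List.length_replicate, List.length_replicate, List.length_replicate, List.foldr_reverse]

theorem Crel_inst (A : Oracle) (k : ℕ) (as : List ℕ) (hk : as.length = k) (a L w : ℕ) (y : ℕ) :
    Crel k A (idx (inst as a L w)) y ↔
      ∃ o, dcS as a L w y = some o ∧ fs (vv as a L w A) o := by
  rw [INS_Crel A k as hk a L w y]
  constructor
  · intro h
    by_cases hy : y = 0
    · exact ⟨none, (INS_dcS as a L w y none).2 (Or.inl ⟨hy, rfl⟩), trivial⟩
    · rcases h with h | ⟨h0, h1, h2, h3⟩
      · exact absurd h hy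
      · obtain ⟨j, hj, ej⟩ := exists_bitsOf (unpair (str y)).1
        obtain ⟨i, hi, ei⟩ := exists_bitsOf (unpair (str y)).2
        rw [h1] at hj ej
        rw [h2] at hi ei
        refine ⟨some (⟨j, hj⟩, ⟨i, hi⟩), (INS_dcS as a L w y _).2
          (Or.inr ⟨hy, _, rfl, h0, ej.symm, ei.symm⟩), ?_⟩
        show vv as a L w A (⟨j, hj⟩, ⟨i, hi⟩) = true
        rw [INS_vv]
        show (as.foldl (fun v a => up a v) (bitv A w))
          (inst as a L w ++ bitsOf L j ++ bitsOf a i) = true
        rw [ej, ei]
        exact h3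
  · rintro ⟨o, ho, hf⟩
    rw [INS_dcS] at ho
    rcases ho with ⟨hy, _⟩ | ⟨_, p, hp, h0, h1, h2⟩
    · exact Or.inl hy
    · right
      subst hp
      have hf' : vv as a L w A p = true := hf
      rw [INS_vv] at hf'
      refine ⟨h0, by rw [h1, length_bitsOf], by rw [h2, length_bitsOf], ?_⟩
      rw [h1, h2]
      exact hf'

theorem rho_dcS (as : List ℕ) (a L w : ℕ) (y : ℕ) (o : Option (Fin (2 ^ L) × Fin (2 ^ a)))
    (h : dcS as a L w y = some o) : rho y = rk (rB L) o := by
  rw [INS_dcS] at h
  rcases h with ⟨hy, ho⟩ | ⟨_, p, hp, _, h1, _⟩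
  · rw [hy, ho]
    unfold rho
    rw [INS_str_zero]
    rfl
  · rw [hp]
    unfold rho
    rw [h1]
    rfl

end Pool.Agent.H585R2.CC
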