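import Pool.Agent.H585R2.CC.GDefs
import Pool.Agent.H591R3.PHG.Inv

/-! Stubs. Never import this file in a finished file. -/

set_option autoImplicit false

namespace Pool.Agent.H585R2.CC

open Finset H568R2 Pool.Agent.H676 Pool.Agent.H620R2.Gauge Pool.Agent.NPC Pool.Agent.H591R3.PHG

/-! ### Task TCH: file `Tch.lean` -/

theorem tch_exists {X : Type} [Fintype X] [DecidableEq X] {c : ℕ} (r : X → ℕ)
    (hr : Function.Injective r) (hr0 : ∀ j, 0 < r j) (s : X × Fin c → Option Bool)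
    (hs : ∀ p, s p ≠ some true) (G : Gm (X × Fin c)) {R q : ℕ} (hR : Bd G R) (hq : Bp G q) :
    ∃ Tc : (X × Fin c → Bool) → Finset (X × Fin c),
      (∀ z p, s p = none → p ∈ Tc z → z p = true → p ∈ Tc (Function.update z p false)) ∧
      (∀ z, (Tc z).card ≤ R) ∧
      (∀ z, (∀ p ∈ Tc z, val s z p = false) → q < nfeas (val s z) →
        ¬ Win r (val s z) (play r (val s z) z G)) := by sorry

/-! ### Task GAM: file `Gam.lean` (uses TCH from the stubs) -/

open Classical in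
theorem game_bound {X : Type} [Fintype X] [DecidableEq X] {c : ℕ} (r : X → ℕ)
    (hr : Function.Injective r) (hr0 : ∀ j, 0 < r j) {t : ℝ} (ht0 : 0 ≤ t) (ht : t ≤ 1 / 2)
    (s : X × Fin c → Option Bool) (hs : ∀ p, s p ≠ some true) (G : Gm (X × Fin c)) {R q : ℕ}
    (hR : Bd G R) (hq : Bp G q) :
    Ex (ber t) (fun z : X × Fin c → Bool =>
      if Win r (val s z) (play r (val s z) z G) then (1 : ℝ) else 0) ≤
      2 * t * R + Ex (ber t) (fun z : X × Fin c → Bool =>
        if nfeas (val s z) ≤ q then (1 : ℝ) else 0) := by sorry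

/-! ### Task SIM: file `Sim.lean` -/

theorem sim {X : Type} [Fintype X] [DecidableEq X] {c : ℕ} (r : X → ℕ) (M : Comp) (x : ℕ)
    (dc : ℕ → Option (Option (X × Fin c))) (cd : Option (X × Fin c) → ℕ)
    (hdc : dc 0 = some none) (hlen : ∀ o, (str (cd o)).length ≤ (str x).length)
    (pS : Polynomial ℕ) {r0 ℓ Mx La : ℕ}
    (hD : ∀ a q : List Bool, a.length ≤ La → M.D (pairBits (str x) a) = false :: q →
      q.length ≤ ℓ ∧ pS.eval q.length ≤ Mx)
    (F : ℕ → List Bool → (X × Fin c → Bool) → Bool)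
    (hF : ∀ m ≤ Mx, ∀ y : List Bool, y.length ≤ ℓ → DTr r0 (F m y))
    (s : X × Fin c → Option Bool) :
    ∀ (n : ℕ) (a : List Bool), a.length + n * (2 * (str x).length + 2) ≤ La →
      ∃ G : Gm (X × Fin c), Bd G (n * (r0 + 1) + 1) ∧ Bp G n ∧ ∀ (z : X × Fin c → Bool) (y : ℕ),
        M.run (fun q => F (pS.eval q.length) q z) (fun _ y => advT r dc cd (val s z) y) x n a =
          some y → ∀ o, dc y = some o → play r (val s z) z G = o := by sorry

/-! ### Task CNT: file `Cnt.lean` -/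

open Classical in
theorem nfeas_bound {X : Type} [Fintype X] [DecidableEq X] {c q : ℕ} {t : ℝ} (ht0 : 0 ≤ t)
    (ht1 : t ≤ 1) {law : Option Bool → ℝ} (hn : ∀ v, 0 ≤ law v) (hl : ∑ v, law v = 1)
    (hp : 1 / 2 ≤ c * (t * law none + law (some true))) :
    Ex law (fun s : X × Fin c → Option Bool => Ex (ber t) (fun z : X × Fin c → Bool =>
      if nfeas (val s z) ≤ q then (1 : ℝ) else 0)) ≤ 2 ^ q * (9 / 10) ^ (Fintype.card X) := by
  sorry

open Classical in
theorem killed_bound {I : Type} [Fintype I] [DecidableEq I] {law : Option Bool → ℝ}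
    (hn : ∀ v, 0 ≤ law v) (hl : ∑ v, law v = 1) :
    Ex law (fun s : I → Option Bool => if ∃ p, s p = some true then (1 : ℝ) else 0) ≤
      Fintype.card I * law (some true) := by sorry

/-! ### Task SIZ: file `Siz.lean` -/

theorem sizes {n : ℕ} (hn : 5 ≤ n) : ∀ (k : ℕ) (law : Option Bool → ℝ), Inv n law →
    ∃ (as : List ℕ) (law' : Option Bool → ℝ), as.length = k ∧ (∀ a ∈ as, a ≤ 64 * n) ∧
      Inv n law' ∧
      ∀ (X : Type) [Fintype X] [DecidableEq X] (W : (X → Option Bool) → ℝ),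
        Ex law (fun s : Idx X (pw as) → Option Bool =>
          PW (1 / 2 ^ (4 * n)) (1 / 2 ^ (2 * n)) (8 * n * 2 ^ (4 * n)) W (pw as) s) =
        Ex law' W := by sorry

/-! ### Task PIL: file `Pil.lean` -/

theorem isOpt_Crel (k : ℕ) (A : Oracle) : IsOpt A k (Crel k A) rho := by sorry

/-! ### Task INS: file `Ins.lean` -/

theorem rB_inj (L : ℕ) : Function.Injective (rB L) := by sorry

theorem rB_pos {L : ℕ} (hL : 1 ≤ L) (j : Fin (2 ^ L)) : 0 < rB L j := by sorry

theorem dcS_zero (as : List ℕ) (a L w : ℕ) : dcS as a L w 0 = some none := by sorry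

theorem cdS_len (as : List ℕ) (a L w : ℕ) (o : Option (Fin (2 ^ L) × Fin (2 ^ a))) :
    (str (cdS a L o)).length < (inst as a L w).length := by sorry

theorem dcS_cdS (as : List ℕ) (a L w : ℕ) (hL : 1 ≤ L) (o : Option (Fin (2 ^ L) × Fin (2 ^ a))) :
    dcS as a L w (cdS a L o) = some o := by sorry

theorem inst_len (as : List ℕ) (a L w : ℕ) :
    (inst as a L w).length = 2 * L + 2 * a + 2 * as.sum + as.length + 2 * w + 3 := by sorry

theorem chs_inj (as : List ℕ) (a L w : ℕ) : Function.Injective (chs as a L w) := by sorry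

theorem chs_len (as : List ℕ) (a L w : ℕ) (p : Fin (2 ^ L) × Fin (2 ^ a)) :
    (chs as a L w p).length = (inst as a L w).length + L + a := by sorry

theorem Crel_inst (A : Oracle) (k : ℕ) (as : List ℕ) (hk : as.length = k) (a L w : ℕ) (y : ℕ) :
    Crel k A (idx (inst as a L w)) y ↔
      ∃ o, dcS as a L w y = some o ∧ fs (vv as a L w A) o := by sorry

theorem rho_dcS (as : List ℕ) (a L w : ℕ) (y : ℕ) (o : Option (Fin (2 ^ L) × Fin (2 ^ a)))
    (h : dcS as a L w y = some o) : rho y = rk (rB L) o := by sorry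

/-! ### Task LEG: file `Leg.lean` (uses INS from the stubs) -/

theorem optimal_inst (A : Oracle) (k : ℕ) (as : List ℕ) (hk : as.length = k) (a L w : ℕ)
    (hL : 1 ≤ L) (y : ℕ) :
    Optimal (Crel k A) rho (idx (inst as a L w)) y ↔
      ∃ o, dcS as a L w y = some o ∧ Win (rB L) (vv as a L w A) o := by sorry

theorem legal_inst (A : Oracle) (k : ℕ) (as : List ℕ) (hk : as.length = k) (a L w : ℕ)
    (hL : 1 ≤ L) :
    Legal (Crel k A) rho (idx (inst as a L w))
      (fun _ y => advT (rB L) (dcS as a L w) (cdS a L) (vv as a L w A) y) := by sorry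

/-! ### Task GEN (helper585) -/

theorem gen_leaf {X : Type} [Fintype X] [DecidableEq X] {n u ℓ Mx : ℕ} (hn : 5 ≤ n)
    (hu : 8 * u ≤ n) (S : (ℕ → List Bool → Bool) → (X → Bool) → ℝ) (hS0 : ∀ h v, 0 ≤ S h v)
    (hS1 : ∀ h v, S h v ≤ 1) (W : (X → Option Bool) → ℝ) (hW0 : ∀ s, 0 ≤ W s)
    (hW : ∀ (s : X → Option Bool) (F : ℕ → List Bool → (X → Bool) → Bool),
      (∀ m ≤ Mx, ∀ y : List Bool, y.length ≤ ℓ → DTr (2 ^ (2 * u)) (F m y)) →
      Ex (ber (1 / 2 ^ (4 * n))) (fun z => S (fun m y => F m y z) (val s z)) ≤ W s)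
    (k : ℕ) (cs : List ℕ) (hcs : cs.length = k)
    (F : ℕ → List Bool → (Idx X (8 * n :: cs) → Bool) → Bool)
    (hF : ∀ m ≤ Mx, ∀ y : List Bool, y.length ≤ ℓ + k * (2 * m + 1) →
      DTr (2 ^ (2 * u)) (F m y)) (b : Bool) :
    Ex (ber (1 / 2)) (fun z : Idx X (8 * n :: cs) → Bool =>
        S (fun m y => QF m (F m) k b y z) (Tr (8 * n :: cs) z)) ≤
      k * ((Mx + 1) * (2 ^ (ℓ + k * (2 * Mx + 1) + 2) * (1 / 2) ^ (2 ^ (2 * u) + 1))) +
      Ex (nxt (1 / 2) (1 / 2 ^ (4 * n)) 0 (8 * n) (8 * n) law0)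
        (PW (X := X) (1 / 2 ^ (4 * n)) (1 / 2 ^ (2 * n)) (8 * n * 2 ^ (4 * n)) W cs) := by sorry

end Pool.Agent.H585R2.CC
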